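import Mathlib
import Pool.Agent.H451.BB.Def
import Pool.Agent.H451.TB.Def

/-!
# Products of diagonal cubic hypersurfaces over `K = ℚ(√-3)`: definitions

`X = V × Y_1 × ⋯ × Y_r`, where `V : ∑ a_i x_i ^ 3 = 0` is a diagonal cubic hypersurface in `m = 3, 5, 7`
variables (a curve, a threefold or a fivefold) and `Y_t : ∑ b_{t,i} y_i ^ 3 = 0` is a diagonal cubic in
`n_t = 2` or `4` variables: for `n_t = 4` a cubic surface, for `n_t = 2` the spectrum of
`K[y] / (b_1 y ^ 3 + b_2)`, so a product with it is the base change to the extension of `K` generated by a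
cube root of `b_1 / b_2`.
-/

set_option autoImplicit false

namespace Pool.Agent.H451.XP

open NumberField IsDedekindDomain
open Pool.Agent.H451.CubT (DS E)
open scoped Classical

/-- The sets of `h = (m - 3) / 2` of the `m` indices. -/
abbrev Idx (m : ℕ) : Type := {S : Finset (Fin m) // S.card = (m - 3) / 2}

/-- The sets of half of the `n` indices, `n = 2, 4`. -/
abbrev Hf (n : ℕ) : Type := {T : Finset (Fin n) // T.card = n / 2}

/-- The types of the cubic characters of `Y`: no character, or one of the `C(n, n / 2)` characters. -/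
abbrev Ty (n : ℕ) : Type := Option (Hf n)

/-- A basis of the cohomology of `Y`, of dimension `n - 2`: the powers of the class of a hyperplane and
the classes which belong to the characters. -/
abbrev Cl (n : ℕ) : Type := Fin (n - 1) ⊕ Hf n

/-- the character of a class -/
def ty {n : ℕ} : Cl n → Ty n
  | .inl _ => none
  | .inr T => some T

/-- the codimension of a class -/
def sh {n : ℕ} : Cl n → ℕ
  | .inl i => i
  | .inr _ => (n - 2) / 2

/-- the number `∏ b_i · ∏_{i ∈ T} b_i` whose cubic residue symbol is the character, `1` for the trivial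
character -/
def cf {R : Type} [CommRing R] {n : ℕ} (b : Fin n → R) (τ : Ty n) : R :=
  τ.elim 1 fun T => DS b T.1

/-- The parameter `D_{S,τ} = ∏ a_i · ∏_{i ∈ S} a_i · ∏_t cf (b_t) (τ_t)` of the curve
`E_{S,τ} : y ^ 2 + D_{S,τ} y = x ^ 3`. -/
def DX {R : Type} [CommRing R] {m r : ℕ} {n : Fin r → ℕ} (a : Fin m → R)
    (b : ∀ t : Fin r, Fin (n t) → R) (S : Finset (Fin m)) (τ : ∀ t, Ty (n t)) : R :=
  DS a S * ∏ t, cf (b t) (τ t)

section defs
variable {K : Type} [Field K] [NumberField K]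

/-- The number of the points over the finite field `F` of the diagonal cubic hypersurface
`∑ c_i x_i ^ 3 = 0` in the projective space, `f : 𝓞 K → F`: the number of the vectors `x ≠ 0` with this
property divided by `|F| - 1`. -/
noncomputable def pts {F : Type} [Field F] [Fintype F] (f : 𝓞 K →+* F) {n : ℕ} (c : Fin n → 𝓞 K) : ℚ :=
  (Nat.card {x : Fin n → F // x ≠ 0 ∧ ∑ i, f (c i) * x i ^ 3 = 0} : ℚ) / ((Fintype.card F : ℚ) - 1)

/-- The number of the points of `X = V × Y_1 × ⋯ × Y_r`. -/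
noncomputable def ptsX {F : Type} [Field F] [Fintype F] (f : 𝓞 K →+* F) {m r : ℕ} {n : Fin r → ℕ}
    (a : Fin m → 𝓞 K) (b : ∀ t : Fin r, Fin (n t) → 𝓞 K) : ℚ :=
  pts f a * ∏ t, pts f (b t)

variable {m r : ℕ} {n : Fin r → ℕ} (a : Fin m → 𝓞 K) (b : ∀ t : Fin r, Fin (n t) → 𝓞 K)

/-- The primes that divide neither `3` nor any coefficient. -/
def Gdx (v : HeightOneSpectrum (𝓞 K)) : Prop :=
  (3 : 𝓞 K) ∉ v.asIdeal ∧ (∀ i, a i ∉ v.asIdeal) ∧ ∀ t i, b t i ∉ v.asIdeal

/-- The odd cohomology of `X` is the sum of the `H¹(E_{S,τ})(-(h + ∑ codimensions))`, as an identity of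
numbers of points over all the finite fields. -/
def MotX : Prop :=
  ∀ (F : Type) [Field F] [Fintype F] (f : 𝓞 K →+* F), (3 : F) ≠ 0 → (∀ i, f (a i) ≠ 0) →
    (∀ t i, f (b t i) ≠ 0) →
    ptsX f a b = (∑ i ∈ Finset.range (m - 1), (Fintype.card F : ℚ) ^ i) * ∏ t, pts f (b t) -
      ∑ S : Idx m, ∑ c : ∀ t, Cl (n t), (Fintype.card F : ℚ) ^ ((m - 3) / 2 + ∑ t, sh (c t)) *
        ((Fintype.card F : ℚ) - Nat.card {p : F × F //
          p.2 ^ 2 + f (DX a b S.1 fun t => ty (c t)) * p.2 = p.1 ^ 3})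

/-- `ι` is a basis of the cohomology of `X`, the element `i` has the degree `deg i`, and the `α i` are the
eigenvalues of the Frobenius of `v`: `|α i| = N v ^ (deg i / 2)`, and
`#X(F) = ∑ (-1) ^ (deg i) α_i ^ k` for all `k` and the extension `F` of degree `k` of the residue field.
(The numbers `α i` of each degree are determined by these conditions up to their order.) -/
def IsFrobX (v : HeightOneSpectrum (𝓞 K)) {ι : Type} [Fintype ι] (deg : ι → ℕ) (α : ι → ℂ) : Prop :=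
  (∀ i, ‖α i‖ ^ 2 = (Ideal.absNorm v.asIdeal : ℝ) ^ deg i) ∧
  ∀ (F : Type) [Field F] [Fintype F] (f : 𝓞 K →+* F) (k : ℕ),
    (∀ x, f x = 0 ↔ x ∈ v.asIdeal) → Fintype.card F = Ideal.absNorm v.asIdeal ^ k →
    (ptsX f a b : ℂ) = ∑ i, (-1) ^ deg i * α i ^ k

/-- The conjecture of Beilinson and Bloch for `X = V × Y_1 × ⋯ × Y_r` in all the codimensions `i`, rank
zero: all the `E_{S,τ}(K)` are finite, and for every `i` the `L`-function of `H^(2 i - 1)(X)` (without the
Euler factors at the primes dividing `3` or a coefficient) is entire and does not vanish at `s = i`. -/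
structure AllCodim : Prop where
  /-- the groups of the points are finite -/
  finite : ∀ (S : Idx m) (τ : ∀ t, Ty (n t)), Finite (E ((DX a b S.1 τ : 𝓞 K) : K)).toAffine.Point
  /-- the `L`-functions -/
  lfun : ∃ (ι : Type) (_ : Fintype ι) (deg : ι → ℕ) (α : HeightOneSpectrum (𝓞 K) → ι → ℂ),
    (∀ v, Gdx a b v → IsFrobX a b v deg (α v)) ∧
    ∀ i : ℕ, ∃ L : ℂ → ℂ, Differentiable ℂ L ∧ L i ≠ 0 ∧ ∀ s : ℂ, (i : ℝ) + 1 / 2 < s.re →
      HasProd (fun v : {v // Gdx a b v} => ∏ j ∈ Finset.univ.filter (fun j => deg j + 1 = 2 * i),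
        (1 - α v.1 j * (Ideal.absNorm v.1.asIdeal : ℂ) ^ (-s))⁻¹) (L s)

end defs

/-- Admissible residues: all are `4` or `7`, and no `D_{S,τ}` of elements with these norms modulo `9` has
norm `1` modulo `9`. -/
def Res {m r : ℕ} {n : Fin r → ℕ} (ρ : Fin m → ℕ) (σ : ∀ t : Fin r, Fin (n t) → ℕ) : Prop :=
  (∀ i, ρ i = 4 ∨ ρ i = 7) ∧ (∀ t i, σ t i = 4 ∨ σ t i = 7) ∧
  ∀ (S : Idx m) (τ : ∀ t, Ty (n t)),
    DX (fun i => (ρ i : ℤ)) (fun t i => (σ t i : ℤ)) S.1 τ % 9 ≠ 1

/-- The squarefree `x ∈ 𝓞 K` with `x = 1` modulo `3`, `N(x) ≤ X`, `N(x) = q` modulo `9`. -/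
def Cl1 {K : Type} [Field K] [NumberField K] (q X : ℕ) (x : 𝓞 K) : Prop :=
  (3 : 𝓞 K) ∣ x - 1 ∧ Squarefree x ∧ Algebra.norm ℤ x ≤ X ∧ Algebra.norm ℤ x % 9 = q

/-- The pairs `(a, b)` with all the coefficients in these classes. -/
def BoxX (K : Type) [Field K] [NumberField K] {m r : ℕ} {n : Fin r → ℕ} (ρ : Fin m → ℕ)
    (σ : ∀ t : Fin r, Fin (n t) → ℕ) (X : ℕ) : Set ((Fin m → 𝓞 K) × (∀ t : Fin r, Fin (n t) → 𝓞 K)) :=
  {p | (∀ i, Cl1 (ρ i) X (p.1 i)) ∧ ∀ t i, Cl1 (σ t i) X (p.2 t i)}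

/-- All the pairs `(a, b)` with coefficients different from zero and of norm at most `X`. -/
def AllX (K : Type) [Field K] [NumberField K] (m : ℕ) {r : ℕ} (n : Fin r → ℕ) (X : ℕ) :
    Set ((Fin m → 𝓞 K) × (∀ t : Fin r, Fin (n t) → 𝓞 K)) :=
  {p | (∀ i, p.1 i ≠ 0 ∧ Algebra.norm ℤ (p.1 i) ≤ X) ∧
    ∀ t i, p.2 t i ≠ 0 ∧ Algebra.norm ℤ (p.2 t i) ≤ X}

end Pool.Agent.H451.XP
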