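import Mathlib
import Pool.Agent.H451.BB.Link
import Pool.Agent.H451.XP.Def

/-!
# The numbers of the points of a diagonal cubic of dimension 0 or 2, and of the products
-/

set_option autoImplicit false
set_option linter.unusedSectionVars false
set_option linter.unusedVariables false

namespace Pool.Agent.H451.XP

open Pool.Agent.Y692.QS hiding chi Jc Jc_nr chi_red chi_neg_one
open Pool.Agent.Y715.T.Cub
open Pool.Agent.Y715.T.RecG (Pq)
open Pool.Agent.Y715.T.Rec (cs nn)
open Pool.Agent.H451.BB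
open Pool.Agent.H451.CubT (DS E)
open scoped Classical

/-- the sum over the types, `n = 2, 4` -/
lemma sum_even {n : ℕ} (hn : n = 2 ∨ n = 4) (T : (Fin n → Bool) → ℂ) :
    ∑ e ∈ Finset.univ.filter (fun e : Fin n → Bool => 3 ∣ 2 * nt e + nf e), T e =
      ∑ S : Hf n, T (e1 S.1) := by
  symm
  refine Finset.sum_bij (fun S _ => e1 S.1) (fun S _ => ?_) (fun S _ S' _ h => ?_)
    (fun e he => ?_) (fun S _ => rfl)
  · rw [Finset.mem_filter, nf_e1, nt_e1, S.2]
    refine ⟨Finset.mem_univ _, ?_⟩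
    rcases hn with rfl | rfl <;> norm_num
  · apply Subtype.ext
    ext i
    have h1 := congrFun h i
    simp only [e1, decide_eq_decide] at h1
    exact not_iff_not.1 h1
  · have h2 := (Finset.mem_filter.1 he).2
    have h3 := nt_add e
    refine ⟨⟨Finset.univ.filter fun i => ¬ e i = true, ?_⟩, Finset.mem_univ _, ?_⟩
    · have h4 : (Finset.univ.filter fun i => ¬ e i = true).card = nf e := rfl
      rw [h4]
      omega
    · funext i
      unfold e1
      cases h : e i <;> simp [h]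

section fld

variable {k : Type} [Field k] [Fintype k] {z : k} (hz : z * z = -1 - z) (h3 : (3 : k) ≠ 0)

/-- the number of the points as a sum over the classes -/
noncomputable def PY {n : ℕ} (b : Fin n → k) : ℂ :=
  ∑ c : Cl n, (Fintype.card k : ℂ) ^ sh c * (X hz h3)⁻¹ (cf b (ty c))

/-- the number of the zeros -/
theorem count_Y {n : ℕ} (hn : n = 2 ∨ n = 4) (b : Fin n → k) (hb : ∀ i, b i ≠ 0) :
    (Nat.card {x : Fin n → k // ∑ i, b i * x i ^ 3 = 0} : ℂ) =
      1 + ((Fintype.card k : ℂ) - 1) * PY hz h3 b := by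
  have h1 := count_gauss hz h3 (m := n) (by omega) b hb
  set ψ := AddChar.FiniteField.primitiveChar_to_Complex k with hψd
  have hψ : ψ.IsPrimitive := AddChar.FiniteField.primitiveChar_to_Complex_isPrimitive k
  have hX1 : (X hz h3)⁻¹ (1 : k) = 1 := map_one _
  have hP : PY hz h3 b = ∑ i ∈ Finset.range (n - 1), (Fintype.card k : ℂ) ^ i +
      (Fintype.card k : ℂ) ^ ((n - 2) / 2) * ∑ S : Hf n, (X hz h3)⁻¹ (DD b S.1) := by
    unfold PY
    rw [Fintype.sum_sum_type]
    congr 1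
    · rw [Finset.sum_range]
      refine Finset.sum_congr rfl fun i _ => ?_
      show (Fintype.card k : ℂ) ^ (i : ℕ) * (X hz h3)⁻¹ (1 : k) = _
      rw [hX1, mul_one]
    · rw [Finset.mul_sum]
      rfl
  set Q : ℂ := (Fintype.card k : ℂ) with hQd
  have hQ0 : Q ≠ 0 := by
    rw [hQd]
    exact_mod_cast Fintype.card_ne_zero
  have h6 := gauss_prod hz h3 hψ
  rw [sum_even hn] at h1
  have h2 : ∀ S : Hf n,
      (∏ i, (Y hz h3 (e1 S.1 i))⁻¹ (b i)) * (gaussSum (Y hz h3 true) ψ ^ nt (e1 S.1) *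
        gaussSum (Y hz h3 false) ψ ^ nf (e1 S.1)) =
      Q ^ (n / 2) * (X hz h3)⁻¹ (DD b S.1) := by
    intro S
    have h9 : n - n / 2 = n / 2 := by omega
    rw [prod_e1 hz h3 b hb, nt_e1, nf_e1, S.2, h9, ← mul_pow, h6, mul_comm]
  rw [Finset.sum_congr rfl fun S _ => h2 S, ← Finset.mul_sum] at h1
  have hgeo : (Q - 1) * ∑ i ∈ Finset.range (n - 1), Q ^ i = Q ^ (n - 1) - 1 := by
    rw [mul_comm, geom_sum_mul]
  apply mul_left_cancel₀ hQ0
  rw [h1, hP]
  have hmm : Q ^ n = Q * Q ^ (n - 1) := by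
    rw [← pow_succ']
    congr 1
    omega
  have hmm2 : Q ^ (n / 2) = Q * Q ^ ((n - 2) / 2) := by
    rw [← pow_succ']
    congr 1
    omega
  rw [hmm, hmm2]
  linear_combination -Q * hgeo

lemma card_ne {n : ℕ} (b : Fin n → k) :
    (Nat.card {x : Fin n → k // ∑ i, b i * x i ^ 3 = 0} : ℂ) =
      1 + (Nat.card {x : Fin n → k // x ≠ 0 ∧ ∑ i, b i * x i ^ 3 = 0} : ℂ) := by
  have h1 : Nat.card {x : Fin n → k // ∑ i, b i * x i ^ 3 = 0} =
      Nat.card {x : Fin n → k // x ≠ 0 ∧ ∑ i, b i * x i ^ 3 = 0} + 1 := by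
    rw [Nat.card_eq_fintype_card, Nat.card_eq_fintype_card, Fintype.card_subtype,
      Fintype.card_subtype]
    have h2 : (Finset.univ.filter fun x : Fin n → k => ∑ i, b i * x i ^ 3 = 0) =
        insert 0 (Finset.univ.filter fun x : Fin n → k => x ≠ 0 ∧ ∑ i, b i * x i ^ 3 = 0) := by
      ext x
      simp only [Finset.mem_filter, Finset.mem_univ, true_and, Finset.mem_insert]
      constructor
      · intro h
        by_cases hx : x = 0
        · exact Or.inl hx
        · exact Or.inr ⟨hx, h⟩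
      · rintro (rfl | h)
        · simp
        · exact h.2
    rw [h2, Finset.card_insert_of_notMem (by simp)]
  rw [h1]
  push_cast
  ring

lemma q_ne : (Fintype.card k : ℂ) - 1 ≠ 0 := by
  have h : 1 < Fintype.card k := Fintype.one_lt_card
  intro h1
  have h2 : (Fintype.card k : ℂ) = 1 := sub_eq_zero.1 h1
  have h4 : Fintype.card k = 1 := by exact_mod_cast h2
  omega

/-- the number of the points is real -/
lemma PY_real {n : ℕ} (hn : n = 2 ∨ n = 4) (b : Fin n → k) (hb : ∀ i, b i ≠ 0) :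
    (starRingEnd ℂ) (PY hz h3 b) = PY hz h3 b := by
  have h1 := count_Y hz h3 hn b hb
  have h2 := congrArg (starRingEnd ℂ) h1
  rw [map_add, map_mul, map_sub, map_one, Complex.conj_natCast, Complex.conj_natCast, h1] at h2
  have h4 := add_left_cancel h2
  exact (mul_left_cancel₀ q_ne h4).symm

/-- the product of the numbers of the points -/
lemma prod_PY {r : ℕ} {n : Fin r → ℕ} (b : ∀ t : Fin r, Fin (n t) → k) :
    ∏ t, PY hz h3 (b t) = ∑ c : ∀ t, Cl (n t), (Fintype.card k : ℂ) ^ (∑ t, sh (c t)) *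
      (X hz h3)⁻¹ (∏ t, cf (b t) (ty (c t))) := by
  unfold PY
  rw [Finset.prod_univ_sum, Fintype.piFinset_univ]
  refine Finset.sum_congr rfl fun c _ => ?_
  rw [Finset.prod_mul_distrib, Finset.prod_pow_eq_pow_sum, map_prod]

/-- **the product with the number of the points of a curve** -/
theorem prod_curve {r : ℕ} {n : Fin r → ℕ} (hn : ∀ t, n t = 2 ∨ n t = 4)
    (b : ∀ t : Fin r, Fin (n t) → k) (hb : ∀ t i, b t i ≠ 0) {D : k} (hD : D ≠ 0) :
    ((Fintype.card k : ℂ) - Nat.card {p : k × k // p.2 ^ 2 + D * p.2 = p.1 ^ 3}) *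
      ∏ t, PY hz h3 (b t) = ∑ c : ∀ t, Cl (n t), (Fintype.card k : ℂ) ^ (∑ t, sh (c t)) *
        ((Fintype.card k : ℂ) - Nat.card {p : k × k //
          p.2 ^ 2 + (D * ∏ t, cf (b t) (ty (c t))) * p.2 = p.1 ^ 3}) := by
  have hcf : ∀ c : ∀ t, Cl (n t), ∏ t, cf (b t) (ty (c t)) ≠ 0 := by
    intro c
    refine Finset.prod_ne_zero_iff.2 fun t _ => ?_
    rcases c t with i | T
    · exact one_ne_zero
    · exact mul_ne_zero (Finset.prod_ne_zero_iff.2 fun i _ => hb t i)
        (Finset.prod_ne_zero_iff.2 fun i _ => hb t i)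
  have hreal : (starRingEnd ℂ) (∏ t, PY hz h3 (b t)) = ∏ t, PY hz h3 (b t) := by
    rw [map_prod]
    exact Finset.prod_congr rfl fun t _ => PY_real hz h3 (hn t) (b t) (hb t)
  rw [ec_count hz h3 hD]
  have h1 : (X hz h3)⁻¹ D * toC (Jc hz h3) * ∏ t, PY hz h3 (b t) =
      ∑ c : ∀ t, Cl (n t), (Fintype.card k : ℂ) ^ (∑ t, sh (c t)) *
        ((X hz h3)⁻¹ (D * ∏ t, cf (b t) (ty (c t))) * toC (Jc hz h3)) := by
    rw [prod_PY, Finset.mul_sum]
    refine Finset.sum_congr rfl fun c _ => ?_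
    rw [map_mul]
    ring
  have h2 : (starRingEnd ℂ) ((X hz h3)⁻¹ D * toC (Jc hz h3)) * ∏ t, PY hz h3 (b t) =
      ∑ c : ∀ t, Cl (n t), (Fintype.card k : ℂ) ^ (∑ t, sh (c t)) *
        (starRingEnd ℂ) ((X hz h3)⁻¹ (D * ∏ t, cf (b t) (ty (c t))) * toC (Jc hz h3)) := by
    have h4 := congrArg (starRingEnd ℂ) h1
    rw [map_mul, hreal, map_sum] at h4
    rw [h4]
    refine Finset.sum_congr rfl fun c _ => ?_
    rw [map_mul (starRingEnd ℂ) ((Fintype.card k : ℂ) ^ _), map_pow, Complex.conj_natCast]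
  have h4 : ∀ c : ∀ t, Cl (n t), (Fintype.card k : ℂ) ^ (∑ t, sh (c t)) *
        ((Fintype.card k : ℂ) - Nat.card {p : k × k //
          p.2 ^ 2 + (D * ∏ t, cf (b t) (ty (c t))) * p.2 = p.1 ^ 3}) =
      -((Fintype.card k : ℂ) ^ (∑ t, sh (c t)) *
        ((X hz h3)⁻¹ (D * ∏ t, cf (b t) (ty (c t))) * toC (Jc hz h3)) +
        (Fintype.card k : ℂ) ^ (∑ t, sh (c t)) *
        (starRingEnd ℂ) ((X hz h3)⁻¹ (D * ∏ t, cf (b t) (ty (c t))) * toC (Jc hz h3))) := by
    intro c
    rw [ec_count hz h3 (mul_ne_zero hD (hcf c))]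
    ring
  rw [Finset.sum_congr rfl fun c _ => h4 c, Finset.sum_neg_distrib, Finset.sum_add_distrib, ← h1,
    ← h2]
  ring

end fld

end Pool.Agent.H451.XP
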