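import Mathlib
import Pool.Agent.H451.BB.Main
import Pool.Agent.H451.XP.A1

/-!
# The numbers of the points of the products
-/

set_option autoImplicit false
set_option linter.unusedSectionVars false
set_option linter.unusedVariables false

namespace Pool.Agent.H451.XP

open NumberField IsDedekindDomain
open Pool.Agent.H921R2.TatePole (nm)
open Pool.Agent.Y703.CT
open Pool.Agent.Y696.CT
open Pool.Agent.Y696.CTK hiding toC_w
open Pool.Agent.Y692.QS hiding chi Jc Jc_nr chi_red chi_neg_one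
open Pool.Agent.Y715.T.Rec (cs nn)
open Pool.Agent.Y715.T.RecG (Pq)
open Pool.Agent.H451.BB
open Pool.Agent.H451.CubT (DS E Good Gd)
open scoped Classical

lemma cf_map {R T : Type} [CommRing R] [CommRing T] (f : R →+* T) {n : ℕ} (b : Fin n → R)
    (τ : Ty n) : cf (fun i => f (b i)) τ = f (cf b τ) := by
  rcases τ with _ | T
  · exact (map_one f).symm
  · exact DD_map f b T.1

lemma DX_map {R T : Type} [CommRing R] [CommRing T] (f : R →+* T) {m r : ℕ} {n : Fin r → ℕ}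
    (a : Fin m → R) (b : ∀ t : Fin r, Fin (n t) → R) (S : Finset (Fin m)) (τ : ∀ t, Ty (n t)) :
    DX (fun i => f (a i)) (fun t i => f (b t i)) S τ = f (DX a b S τ) := by
  unfold DX
  rw [map_mul, map_prod]
  congr 1
  · exact DD_map f a S
  · exact Finset.prod_congr rfl fun t _ => cf_map f (b t) (τ t)

section K
variable {K : Type} [Field K] [NumberField K] [IsCyclotomicExtension {3} ℚ K] (j : Ei ≃+* 𝓞 K)

include j in
/-- the number of the points of `V` -/
lemma pts_V {F : Type} [Field F] [Fintype F] (f : 𝓞 K →+* F) (h3 : (3 : F) ≠ 0) {m : ℕ}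
    (hm : m = 3 ∨ m = 5 ∨ m = 7) (a : Fin m → 𝓞 K) (ha : ∀ i, f (a i) ≠ 0) :
    (pts f a : ℂ) = ∑ i ∈ Finset.range (m - 1), (Fintype.card F : ℂ) ^ i -
        (Fintype.card F : ℂ) ^ ((m - 3) / 2) * ∑ S : Idx m, ((Fintype.card F : ℂ) -
            (Nat.card {p : F × F // p.2 ^ 2 + f (DS a S.1) * p.2 = p.1 ^ 3} : ℂ)) := by
  have hz : f (j w) * f (j w) = -1 - f (j w) := fw (f.comp (j : Ei →+* 𝓞 K))
  have h1 := link hz h3 hm (fun i => f (a i)) ha
  have h2 : ∀ S : Finset (Fin m), DD (fun i => f (a i)) S = f (DS a S) := fun S => DD_map f a S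
  simp only [h2] at h1
  rw [card_ne, sum_sub (fun S => ((Fintype.card F : ℂ) -
            (Nat.card {p : F × F // p.2 ^ 2 + f (DS a S) * p.2 = p.1 ^ 3} : ℂ)))] at h1
  have h4 := add_left_cancel h1
  unfold pts
  push_cast
  rw [h4, mul_div_cancel_left₀ _ q_ne]

/-- the number of the points of `Y` -/
lemma pts_Y {F : Type} [Field F] [Fintype F] (f : 𝓞 K →+* F) {z : F} (hz : z * z = -1 - z)
    (h3 : (3 : F) ≠ 0) {n : ℕ} (hn : n = 2 ∨ n = 4) (b : Fin n → 𝓞 K) (hb : ∀ i, f (b i) ≠ 0) :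
    (pts f b : ℂ) = PY hz h3 fun i => f (b i) := by
  have h1 := count_Y hz h3 hn (fun i => f (b i)) hb
  rw [card_ne] at h1
  have h4 := add_left_cancel h1
  unfold pts
  push_cast
  rw [h4, mul_div_cancel_left₀ _ q_ne]

include j in
/-- **the number of the points of the product** -/
theorem ptsX_eq {F : Type} [Field F] [Fintype F] (f : 𝓞 K →+* F) (h3 : (3 : F) ≠ 0) {m r : ℕ}
    {n : Fin r → ℕ} (hm : m = 3 ∨ m = 5 ∨ m = 7) (hn : ∀ t, n t = 2 ∨ n t = 4) (a : Fin m → 𝓞 K)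
    (b : ∀ t : Fin r, Fin (n t) → 𝓞 K) (ha : ∀ i, f (a i) ≠ 0) (hb : ∀ t i, f (b t i) ≠ 0) :
    (ptsX f a b : ℂ) = (∑ i ∈ Finset.range (m - 1), (Fintype.card F : ℂ) ^ i) *
      ((∏ t, pts f (b t) : ℚ) : ℂ) -
      ∑ S : Idx m, ∑ c : ∀ t, Cl (n t), (Fintype.card F : ℂ) ^ ((m - 3) / 2 + ∑ t, sh (c t)) *
        ((Fintype.card F : ℂ) - (Nat.card {p : F × F //
          p.2 ^ 2 + f (DX a b S.1 fun t => ty (c t)) * p.2 = p.1 ^ 3} : ℂ)) := by
  have hz : f (j w) * f (j w) = -1 - f (j w) := fw (f.comp (j : Ei →+* 𝓞 K))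
  have hY : ((∏ t, pts f (b t) : ℚ) : ℂ) = ∏ t, PY hz h3 fun i => f (b t i) := by
    push_cast
    exact Finset.prod_congr rfl fun t _ => pts_Y f hz h3 (hn t) (b t) (hb t)
  have h0 : (ptsX f a b : ℂ) = (pts f a : ℂ) * ((∏ t, pts f (b t) : ℚ) : ℂ) := by
    unfold ptsX
    push_cast
    rfl
  rw [h0, pts_V j f h3 hm a ha, sub_mul, mul_assoc]
  congr 1
  rw [Finset.sum_mul, Finset.mul_sum]
  refine Finset.sum_congr rfl fun S _ => ?_
  have hD : f (DS a S.1) ≠ 0 := by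
    unfold DS
    rw [map_mul, map_prod, map_prod]
    exact mul_ne_zero (Finset.prod_ne_zero_iff.2 fun i _ => ha i)
      (Finset.prod_ne_zero_iff.2 fun i _ => ha i)
  rw [hY, prod_curve hz h3 hn (fun t i => f (b t i)) hb hD, Finset.mul_sum]
  refine Finset.sum_congr rfl fun c _ => ?_
  have h4 : f (DS a S.1) * ∏ t, cf (fun i => f (b t i)) (ty (c t)) =
      f (DX a b S.1 fun t => ty (c t)) := by
    rw [← DX_map]
    unfold DX
    congr 1
    exact (DD_map f a S.1).symm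
  rw [h4, pow_add]
  ring

include j in
theorem motX {m r : ℕ} {n : Fin r → ℕ} (hm : m = 3 ∨ m = 5 ∨ m = 7) (hn : ∀ t, n t = 2 ∨ n t = 4)
    (a : Fin m → 𝓞 K) (b : ∀ t : Fin r, Fin (n t) → 𝓞 K) : MotX a b := by
  intro F _ _ f h3 ha hb
  have h1 := ptsX_eq j f h3 hm hn a b ha hb
  exact_mod_cast h1

end K

end Pool.Agent.H451.XP
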