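import Mathlib
import Pool.Agent.H451.XP.A2

/-!
# The eigenvalues of the Frobenius automorphisms of the products
-/

set_option autoImplicit false
set_option linter.unusedSectionVars false
set_option linter.unusedVariables false

namespace Pool.Agent.H451.XP

open NumberField IsDedekindDomain
open Pool.Agent.H921R2.TatePole (nm)
open Pool.Agent.Y703.CT
open Pool.Agent.Y696.CT
open Pool.Agent.Y696.CTK hiding toC_w
open Pool.Agent.Y692.QS hiding chi Jc Jc_nr chi_red chi_neg_one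
open Pool.Agent.Y715.T.Rec (cs nn)
open Pool.Agent.Y715.T.RecG (Pq)
open Pool.Agent.H451.BB
open Pool.Agent.H451.CubT (DS E Good Gd nm_P)
open scoped Classical

section ei

variable {m r : ℕ} {n : Fin r → ℕ} (a : Fin m → Ei) (b : ∀ t : Fin r, Fin (n t) → Ei)

/-- the good primes -/
def GPX (P : HeightOneSpectrum Ei) : Prop :=
  ¬ Over3 P ∧ (∀ i, ¬ rho P ∣ a i) ∧ ∀ t i, ¬ rho P ∣ b t i

/-- the product of the numbers of a tuple of classes -/
def pc (c : ∀ t, Cl (n t)) : Ei := ∏ t, cf (b t) (ty (c t))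

/-- the index set -/
abbrev IX (m : ℕ) (n : Fin r → ℕ) : Type :=
  (Fin (m - 1) × ∀ t, Cl (n t)) ⊕ ((Idx m × ∀ t, Cl (n t)) × Bool)

/-- the degrees -/
def dg : IX m n → ℕ
  | .inl q => 2 * (q.1 + ∑ t, sh (q.2 t))
  | .inr q => 2 * ((m - 3) / 2 + ∑ t, sh (q.1.2 t)) + 1

/-- the eigenvalues -/
noncomputable def eX (P : HeightOneSpectrum Ei) : IX m n → ℂ
  | .inl q => Np P ^ ((q.1 : ℕ) + ∑ t, sh (q.2 t)) * tw (-cs (rho P) (pc b q.2))
  | .inr q => Np P ^ ((m - 3) / 2 + ∑ t, sh (q.1.2 t)) *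
      if q.2 = true then xc (DX a b q.1.1.1 fun t => ty (q.1.2 t)) P
        else (starRingEnd ℂ) (xc (DX a b q.1.1.1 fun t => ty (q.1.2 t)) P)

variable {a b}

lemma ndvd_cf {n : ℕ} {b : Fin n → Ei} {ρ : Ei} (hρ : Prime ρ) (h : ∀ i, ¬ ρ ∣ b i) (τ : Ty n) :
    ¬ ρ ∣ cf b τ := by
  rcases τ with _ | T
  · exact fun h1 => hρ.not_isUnit (isUnit_of_dvd_one h1)
  · exact DD_ndvd hρ h T.1

lemma ndvd_prod {ρ : Ei} (hρ : Prime ρ) (h : ∀ t i, ¬ ρ ∣ b t i) (τ : ∀ t, Ty (n t)) :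
    ¬ ρ ∣ ∏ t, cf (b t) (τ t) := by
  intro h1
  obtain ⟨t, -, ht⟩ := (hρ.dvd_finsetProd_iff _).1 h1
  exact ndvd_cf hρ (h t) (τ t) ht

lemma ndvd_DX {ρ : Ei} (hρ : Prime ρ) (h1 : ∀ i, ¬ ρ ∣ a i) (h : ∀ t i, ¬ ρ ∣ b t i)
    (S : Finset (Fin m)) (τ : ∀ t, Ty (n t)) : ¬ ρ ∣ DX a b S τ := by
  intro h2
  rcases hρ.dvd_or_dvd h2 with h3 | h3
  · exact DD_ndvd hρ h1 S h3
  · exact ndvd_prod hρ h τ h3

lemma tw_norm (c : ZMod 3) : ‖tw c‖ = 1 := by
  have h : tw c ^ 3 = 1 := by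
    unfold tw
    rw [← pow_mul, mul_comm, pow_mul, ← map_pow, w_cube, map_one, one_pow]
  exact Complex.norm_eq_one_of_pow_eq_one h (by norm_num)

lemma np_norm' (P : HeightOneSpectrum Ei) : ‖Np P‖ = ((nr (gn P.asIdeal) : ℤ) : ℝ) := by
  unfold Np
  have h : (0 : ℝ) ≤ ((nr (gn P.asIdeal) : ℤ) : ℝ) := by exact_mod_cast np_nonneg P
  rw [Complex.norm_intCast, abs_of_nonneg h]

/-- the absolute values of the eigenvalues -/
lemma eX_norm {P : HeightOneSpectrum Ei} (hP : GPX a b P) (q : IX m n) :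
    ‖eX a b P q‖ ^ 2 = ((nr (gn P.asIdeal) : ℤ) : ℝ) ^ dg q := by
  rcases q with q | q
  · show ‖Np P ^ ((q.1 : ℕ) + ∑ t, sh (q.2 t)) * tw (-cs (rho P) (pc b q.2))‖ ^ 2 =
      ((nr (gn P.asIdeal) : ℤ) : ℝ) ^ (2 * ((q.1 : ℕ) + ∑ t, sh (q.2 t)))
    rw [norm_mul, tw_norm, mul_one, norm_pow, np_norm', ← pow_mul, mul_comm _ 2]
  · have hxc : ‖xc (DX a b q.1.1.1 fun t => ty (q.1.2 t)) P‖ ^ 2 =
        ((nr (gn P.asIdeal) : ℤ) : ℝ) := by
      have h1 := xc_sq hP.1 (d := DX a b q.1.1.1 fun t => ty (q.1.2 t))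
        (ndvd_DX (rho_pq hP.1).prime hP.2.1 hP.2.2 _ _)
      rw [Complex.mul_conj, Complex.normSq_eq_norm_sq] at h1
      unfold Np at h1
      exact_mod_cast h1
    show ‖Np P ^ ((m - 3) / 2 + ∑ t, sh (q.1.2 t)) *
      (if q.2 = true then xc (DX a b q.1.1.1 fun t => ty (q.1.2 t)) P
        else (starRingEnd ℂ) (xc (DX a b q.1.1.1 fun t => ty (q.1.2 t)) P))‖ ^ 2 =
      ((nr (gn P.asIdeal) : ℤ) : ℝ) ^ (2 * ((m - 3) / 2 + ∑ t, sh (q.1.2 t)) + 1)
    have h2 : ‖(if q.2 = true then xc (DX a b q.1.1.1 fun t => ty (q.1.2 t)) P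
        else (starRingEnd ℂ) (xc (DX a b q.1.1.1 fun t => ty (q.1.2 t)) P))‖ ^ 2 =
        ((nr (gn P.asIdeal) : ℤ) : ℝ) := by
      split_ifs
      · exact hxc
      · rw [RCLike.norm_conj]
        exact hxc
    rw [norm_mul, mul_pow, h2, norm_pow, np_norm', ← pow_mul, mul_comm _ 2, pow_succ]

end ei

section K
variable {K : Type} [Field K] [NumberField K] [IsCyclotomicExtension {3} ℚ K] (j : Ei ≃+* 𝓞 K)

include j in
/-- **the numbers of the points and the eigenvalues** -/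
theorem eX_count {m r : ℕ} {n : Fin r → ℕ} (hm : m = 3 ∨ m = 5 ∨ m = 7)
    (hn : ∀ t, n t = 2 ∨ n t = 4) (a : Fin m → 𝓞 K) (b : ∀ t : Fin r, Fin (n t) → 𝓞 K)
    {P : HeightOneSpectrum Ei}
    (hP : GPX (fun i => j.symm (a i)) (fun t i => j.symm (b t i)) P)
    {F : Type} [Field F] [Fintype F] (f : 𝓞 K →+* F) {k : ℕ} (hf : ∀ x, f (j x) = 0 ↔ x ∈ P.asIdeal)
    (hr : (Fintype.card F : ℤ) = nr (gn P.asIdeal) ^ k) :
    (ptsX f a b : ℂ) = ∑ q : IX m n, (-1) ^ dg q *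
      eX (fun i => j.symm (a i)) (fun t i => j.symm (b t i)) P q ^ k := by
  have hpq := rho_pq hP.1
  set g : Ei →+* F := f.comp (j : Ei →+* 𝓞 K) with hg
  have hg' : ∀ x, g x = 0 ↔ rho P ∣ x := by
    intro x
    show f (j x) = 0 ↔ _
    rw [hf, rho_span hP.1, Ideal.mem_span_singleton]
  have hr' := hr
  rw [← rho_nr hP.1] at hr'
  have h3 : (3 : F) ≠ 0 := f_three hpq hg'
  have hgf : ∀ x : 𝓞 K, g (j.symm x) = f x := fun x => congrArg f (j.apply_symm_apply x)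
  have ha : ∀ i, f (a i) ≠ 0 := fun i h => hP.2.1 i (by
    rw [← hg', hgf]
    exact h)
  have hb : ∀ t i, f (b t i) ≠ 0 := fun t i h => hP.2.2 t i (by
    rw [← hg', hgf]
    exact h)
  have hN : Np P = ((nr (rho P) : ℤ) : ℂ) := by
    unfold Np
    rw [rho_nr hP.1]
  have hQ : (Fintype.card F : ℂ) = Np P ^ k := by
    unfold Np
    have := congrArg (fun x : ℤ => (x : ℂ)) hr
    push_cast at this
    exact this
  have hQe : ∀ e : ℕ, (Fintype.card F : ℂ) ^ e = (Np P ^ e) ^ k := by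
    intro e
    rw [hQ, ← pow_mul, ← pow_mul, mul_comm]
  have hDX : ∀ (S : Finset (Fin m)) (τ : ∀ t, Ty (n t)),
      g (DX (fun i => j.symm (a i)) (fun t i => j.symm (b t i)) S τ) = f (DX a b S τ) := by
    intro S τ
    rw [← DX_map g, ← DX_map f]
    simp only [hgf]
  rw [ptsX_eq j f h3 hm hn a b ha hb]
  have hz : g w * g w = -1 - g w := fw g
  have hY : ((∏ t, pts f (b t) : ℚ) : ℂ) = ∑ c : ∀ t, Cl (n t), (Fintype.card F : ℂ) ^
      (∑ t, sh (c t)) * tw (-cs (rho P) (pc (fun t i => j.symm (b t i)) c)) ^ k := by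
    have h1 : ((∏ t, pts f (b t) : ℚ) : ℂ) = ∏ t, PY hz h3 fun i => f (b t i) := by
      push_cast
      exact Finset.prod_congr rfl fun t _ => pts_Y f hz h3 (hn t) (b t) (hb t)
    rw [h1, prod_PY]
    refine Finset.sum_congr rfl fun c _ => ?_
    congr 1
    have h2 : ∏ t, cf (fun i => f (b t i)) (ty (c t)) = g (pc (fun t i => j.symm (b t i)) c) := by
      unfold pc
      rw [map_prod]
      refine Finset.prod_congr rfl fun t _ => ?_
      rw [← cf_map g]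
      simp only [hgf]
    rw [h2]
    have h4 := X_f hpq hg' hr' h3 (a := pc (fun t i => j.symm (b t i)) c)
      (ndvd_prod hpq.prime hP.2.2 fun t => ty (c t)) true
    have e : sg true = 1 := rfl
    rw [e, one_mul] at h4
    exact h4
  rw [hY, Fintype.sum_sum_type]
  have hA : (∑ i ∈ Finset.range (m - 1), (Fintype.card F : ℂ) ^ i) *
      ∑ c : ∀ t, Cl (n t), (Fintype.card F : ℂ) ^ (∑ t, sh (c t)) *
        tw (-cs (rho P) (pc (fun t i => j.symm (b t i)) c)) ^ k =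
      ∑ q : Fin (m - 1) × ∀ t, Cl (n t), (-1) ^ dg (Sum.inl q : IX m n) *
        eX (fun i => j.symm (a i)) (fun t i => j.symm (b t i)) P (Sum.inl q) ^ k := by
    rw [Finset.sum_range, Finset.sum_mul_sum, Fintype.sum_prod_type]
    refine Finset.sum_congr rfl fun i _ => Finset.sum_congr rfl fun c _ => ?_
    have e1 : (-1 : ℂ) ^ dg (Sum.inl (i, c) : IX m n) = 1 := by
      show (-1 : ℂ) ^ (2 * ((i : ℕ) + ∑ t, sh (c t))) = 1
      rw [pow_mul, neg_one_sq, one_pow]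
    rw [e1, one_mul]
    show _ = (Np P ^ ((i : ℕ) + ∑ t, sh (c t)) *
      tw (-cs (rho P) (pc (fun t i => j.symm (b t i)) c))) ^ k
    rw [mul_pow, ← hQe, pow_add]
    ring
  have hB : -(∑ S : Idx m, ∑ c : ∀ t, Cl (n t), (Fintype.card F : ℂ) ^ ((m - 3) / 2 +
        ∑ t, sh (c t)) * ((Fintype.card F : ℂ) - (Nat.card {p : F × F //
          p.2 ^ 2 + f (DX a b S.1 fun t => ty (c t)) * p.2 = p.1 ^ 3} : ℂ))) =
      ∑ q : (Idx m × ∀ t, Cl (n t)) × Bool, (-1) ^ dg (Sum.inr q : IX m n) *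
        eX (fun i => j.symm (a i)) (fun t i => j.symm (b t i)) P (Sum.inr q) ^ k := by
    rw [Fintype.sum_prod_type, Fintype.sum_prod_type, ← Finset.sum_neg_distrib]
    refine Finset.sum_congr rfl fun S _ => ?_
    rw [← Finset.sum_neg_distrib]
    refine Finset.sum_congr rfl fun c _ => ?_
    have e1 : ∀ β : Bool, (-1 : ℂ) ^ dg (Sum.inr ((S, c), β) : IX m n) = -1 := by
      intro β
      show (-1 : ℂ) ^ (2 * ((m - 3) / 2 + ∑ t, sh (c t)) + 1) = -1
      rw [pow_succ, pow_mul, neg_one_sq, one_pow, one_mul]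
    have hnd := ndvd_DX hpq.prime hP.2.1 hP.2.2 S.1 fun t => ty (c t)
    have h5 := ec_zeros hpq hg' hr' hnd
    rw [hDX] at h5
    have hx : xc (DX (fun i => j.symm (a i)) (fun t i => j.symm (b t i)) S.1 fun t => ty (c t)) P =
        tw (-cs (rho P) (DX (fun i => j.symm (a i)) (fun t i => j.symm (b t i)) S.1
          fun t => ty (c t))) * toC (rho P) := by
      unfold xc
      rw [if_neg]
      rintro (h | h)
      · exact hP.1 h
      · exact hnd h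
    rw [Fintype.sum_bool, e1, e1, h5]
    show _ = -1 * (Np P ^ ((m - 3) / 2 + ∑ t, sh (c t)) * (if true = true then _ else _)) ^ k +
      -1 * (Np P ^ ((m - 3) / 2 + ∑ t, sh (c t)) * (if false = true then _ else _)) ^ k
    rw [if_pos rfl, if_neg (by decide), ← hx, mul_pow, mul_pow, ← hQe]
    ring
  rw [← hA, ← hB, sub_eq_add_neg]

end K

end Pool.Agent.H451.XP
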