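import Mathlib
import Pool.Agent.H451.XP.A3

/-!
# The `L`-functions of the products
-/

set_option autoImplicit false
set_option linter.unusedSectionVars false
set_option linter.unusedVariables false

namespace Pool.Agent.H451.XP

open NumberField IsDedekindDomain
open Pool.Agent.H921R2.TatePole (nm)
open Pool.Agent.Y703.CT
open Pool.Agent.Y696.CT
open Pool.Agent.Y696.CTK hiding toC_w
open Pool.Agent.Y692.QS hiding chi Jc Jc_nr chi_red chi_neg_one
open Pool.Agent.Y715.T.Rec (cs nn)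
open Pool.Agent.Y715.T.RecG (Pq)
open Pool.Agent.H451.BB
open Pool.Agent.H451.CubT (DS E Good Gd nm_P)
open scoped Classical

section ei

variable {m r : ℕ} {n : Fin r → ℕ}

lemma gpx_iff (a : Fin m → Ei) (b : ∀ t : Fin r, Fin (n t) → Ei) (P : HeightOneSpectrum Ei) :
    GPX a b P ↔ GoodP a P ∧ ¬ Over3 P ∧ ∀ t, GoodP (b t) P := by
  unfold GPX GoodP
  constructor
  · rintro ⟨h1, h2, h3⟩
    exact ⟨⟨h1, h2⟩, h1, fun t => ⟨h1, h3 t⟩⟩
  · rintro ⟨⟨h1, h2⟩, -, h3⟩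
    exact ⟨h1, h2, fun t => (h3 t).2⟩

lemma bad_finX (a : Fin m → Ei) (b : ∀ t : Fin r, Fin (n t) → Ei) (ha : ∀ i, a i ≠ 0)
    (hb : ∀ t i, b t i ≠ 0) : {P : HeightOneSpectrum Ei | ¬ GPX a b P}.Finite := by
  refine ((bad_fin a ha).union (Set.finite_iUnion fun t => bad_fin (b t) (hb t))).subset
    fun P hP => ?_
  by_contra h
  rw [Set.mem_union, not_or, Set.mem_iUnion, not_exists] at h
  obtain ⟨h1, h2⟩ := h
  have h3 : GoodP a P := by
    by_contra h4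
    exact h1 h4
  apply hP
  rw [gpx_iff]
  refine ⟨h3, h3.1, fun t => ?_⟩
  by_contra h4
  exact h2 t h4

/-- the product of the Euler factors -/
lemma eX_prod (a : Fin m → Ei) (b : ∀ t : Fin r, Fin (n t) → Ei) (i : ℕ) (P : HeightOneSpectrum Ei)
    (s : ℂ) :
    ∏ q ∈ Finset.univ.filter (fun q : IX m n => dg q + 1 = 2 * i),
      (1 - eX a b P q * Np P ^ (-s))⁻¹ =
    ∏ q : Idx m × ∀ t, Cl (n t), if (m - 3) / 2 + ∑ t, sh (q.2 t) + 1 = i then
      (fac (DX a b q.1.1 fun t => ty (q.2 t)) (s - (((m - 3) / 2 + ∑ t, sh (q.2 t) : ℕ) : ℂ)) P)⁻¹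
      else 1 := by
  have h0 : Np P ≠ 0 := by
    unfold Np
    have := np_two P
    have h : nr (gn P.asIdeal) ≠ 0 := by omega
    exact_mod_cast h
  rw [Finset.prod_filter, Fintype.prod_sum_type]
  have h1 : ∏ q : Fin (m - 1) × ∀ t, Cl (n t), (if dg (Sum.inl q : IX m n) + 1 = 2 * i then
      (1 - eX a b P (Sum.inl q) * Np P ^ (-s))⁻¹ else 1) = 1 := by
    refine Finset.prod_eq_one fun q _ => ?_
    rw [if_neg]
    show ¬ (2 * ((q.1 : ℕ) + ∑ t, sh (q.2 t)) + 1 = 2 * i)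
    omega
  rw [h1, one_mul, Fintype.prod_prod_type]
  refine Finset.prod_congr rfl fun q _ => ?_
  have h2 : ∀ β : Bool, (dg (Sum.inr (q, β) : IX m n) + 1 = 2 * i) ↔
      (m - 3) / 2 + ∑ t, sh (q.2 t) + 1 = i := by
    intro β
    show 2 * ((m - 3) / 2 + ∑ t, sh (q.2 t)) + 1 + 1 = 2 * i ↔ _
    omega
  rw [Fintype.prod_bool]
  simp only [h2]
  split_ifs with h
  · have h4 : ∀ e : ℕ, Np P ^ (-(s - (e : ℂ))) = Np P ^ e * Np P ^ (-s) := by
      intro e
      rw [neg_sub, sub_eq_add_neg, Complex.cpow_add _ _ h0, Complex.cpow_natCast]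
    unfold fac
    rw [h4]
    show (1 - Np P ^ ((m - 3) / 2 + ∑ t, sh (q.2 t)) * (if true = true then _ else _) *
      Np P ^ (-s))⁻¹ * (1 - Np P ^ ((m - 3) / 2 + ∑ t, sh (q.2 t)) *
      (if false = true then _ else _) * Np P ^ (-s))⁻¹ = _
    rw [if_pos rfl, if_neg (by decide), ← mul_inv]
    congr 1
    ring
  · rw [one_mul]

end ei

section K
variable {K : Type} [Field K] [NumberField K] [IsCyclotomicExtension {3} ℚ K] (j : Ei ≃+* 𝓞 K)

/-- all the parameters have rank zero -/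
def ZX {m r : ℕ} {n : Fin r → ℕ} (a : Fin m → Ei) (b : ∀ t : Fin r, Fin (n t) → Ei) : Prop :=
  ∀ (S : Idx m) (τ : ∀ t, Ty (n t)), ∃ d b' c' : Ei, Base d ∧ b' ≠ 0 ∧ c' ≠ 0 ∧
    b' ^ 3 * DX a b S.1 τ = c' ^ 3 * d

include j in
/-- the `L`-functions, over the primes of the Eisenstein integers -/
theorem famX {m r : ℕ} {n : Fin r → ℕ} (a : Fin m → Ei) (b : ∀ t : Fin r, Fin (n t) → Ei)
    (ha : ∀ i, a i ≠ 0) (hb : ∀ t i, b t i ≠ 0) (h : ZX a b) (i : ℕ) :
    ∃ L : ℂ → ℂ, Differentiable ℂ L ∧ L i ≠ 0 ∧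
      ∀ s : ℂ, (i : ℝ) + 1 / 2 < s.re → HasProd (fun P : {P // GPX a b P} =>
        ∏ q ∈ Finset.univ.filter (fun q : IX m n => dg q + 1 = 2 * i),
          (1 - eX a b P.1 q * Np P.1 ^ (-s))⁻¹) (L s) := by
  have hbad := bad_finX a b ha hb
  set B : Finset (HeightOneSpectrum Ei) := hbad.toFinset with hB
  have hBm : ∀ P, P ∉ B ↔ GPX a b P := by
    intro P
    rw [hB, Set.Finite.mem_toFinset]
    exact not_not
  have key : ∀ (S : Idx m) (τ : ∀ t, Ty (n t)), ∃ L : ℂ → ℂ, Differentiable ℂ L ∧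
      L 1 ≠ 0 ∧ ∀ s : ℂ, 3 / 2 < s.re →
        HasProd (fun P : {P // P ∉ B} => (fac (DX a b S.1 τ) s P.1)⁻¹) (L s) := by
    intro S τ
    obtain ⟨d, b', c', hd, hb0, hc0, hbc⟩ := h S τ
    obtain ⟨p1, p2, p3, -⟩ := base_all j hd
    exact rem_cube p2 hb0 hc0 hbc p1 B fun P hP => by
      obtain ⟨g1, g2, g3⟩ := (hBm P).1 hP
      exact ⟨g1, ndvd_DX (rho_pq g1).prime g2 g3 S.1 τ⟩
  choose L hL using key
  refine ⟨fun s => ∏ q : Idx m × ∀ t, Cl (n t), if (m - 3) / 2 + ∑ t, sh (q.2 t) + 1 = i then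
    L q.1 (fun t => ty (q.2 t)) (s - (((m - 3) / 2 + ∑ t, sh (q.2 t) : ℕ) : ℂ)) else 1,
    ?_, ?_, fun s hs => ?_⟩
  · refine Differentiable.fun_finsetProd fun q _ => ?_
    split_ifs
    · exact (hL q.1 fun t => ty (q.2 t)).1.comp (differentiable_id.sub_const _)
    · exact differentiable_const _
  · refine Finset.prod_ne_zero_iff.2 fun q _ => ?_
    split_ifs with hq
    · have e : (i : ℂ) - (((m - 3) / 2 + ∑ t, sh (q.2 t) : ℕ) : ℂ) = 1 := by
        rw [← hq]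
        push_cast
        ring
      rw [e]
      exact (hL q.1 fun t => ty (q.2 t)).2.1
    · exact one_ne_zero
  · have h1 : HasProd (fun P : {P // P ∉ B} =>
        ∏ q : Idx m × ∀ t, Cl (n t), if (m - 3) / 2 + ∑ t, sh (q.2 t) + 1 = i then
          (fac (DX a b q.1.1 fun t => ty (q.2 t))
            (s - (((m - 3) / 2 + ∑ t, sh (q.2 t) : ℕ) : ℂ)) P.1)⁻¹ else 1)
        (∏ q : Idx m × ∀ t, Cl (n t), if (m - 3) / 2 + ∑ t, sh (q.2 t) + 1 = i then
          L q.1 (fun t => ty (q.2 t)) (s - (((m - 3) / 2 + ∑ t, sh (q.2 t) : ℕ) : ℂ)) else 1) := by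
      refine hasProd_prod fun q _ => ?_
      by_cases hq : (m - 3) / 2 + ∑ t, sh (q.2 t) + 1 = i
      · simp only [if_pos hq]
        refine (hL q.1 fun t => ty (q.2 t)).2.2 _ ?_
        rw [Complex.sub_re, Complex.natCast_re]
        have e : (i : ℝ) = (((m - 3) / 2 + ∑ t, sh (q.2 t) : ℕ) : ℝ) + 1 := by
          rw [← hq]
          push_cast
          ring
        rw [e] at hs
        linarith
      · simp only [if_neg hq]
        exact hasProd_one
    have h2 := (Equiv.hasProd_iff (Equiv.subtypeEquivRight fun P => (hBm P).symm)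
      (f := fun P : {P // P ∉ B} => ∏ q : Idx m × ∀ t, Cl (n t),
        if (m - 3) / 2 + ∑ t, sh (q.2 t) + 1 = i then
          (fac (DX a b q.1.1 fun t => ty (q.2 t))
            (s - (((m - 3) / 2 + ∑ t, sh (q.2 t) : ℕ) : ℂ)) P.1)⁻¹ else 1)).2 h1
    refine h2.congr_fun fun P => ?_
    exact eX_prod a b i P.1 s

end K

end Pool.Agent.H451.XP
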