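import Mathlib
import Pool.Agent.H451.XP.A4

/-!
# The products: all the codimensions
-/

set_option autoImplicit false
set_option linter.unusedSectionVars false
set_option linter.unusedVariables false

namespace Pool.Agent.H451.XP

open NumberField IsDedekindDomain
open Pool.Agent.H921R2.TatePole (nm)
open Pool.Agent.Y703.CT
open Pool.Agent.Y696.CT
open Pool.Agent.Y696.CTK hiding toC_w
open Pool.Agent.Y692.QS hiding chi Jc Jc_nr chi_red chi_neg_one
open Pool.Agent.Y715.T.Rec (cs nn)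
open Pool.Agent.Y715.T.RecG (Pq)
open Pool.Agent.H451.BB
open Pool.Agent.H451.CubT (DS E Good Gd nm_P gd_iff)
open scoped Classical

section K
variable {K : Type} [Field K] [NumberField K] [IsCyclotomicExtension {3} ℚ K] (j : Ei ≃+* 𝓞 K)

variable {m r : ℕ} {n : Fin r → ℕ} (a : Fin m → 𝓞 K) (b : ∀ t : Fin r, Fin (n t) → 𝓞 K)

lemma gdx_iff (hm : m = 3 ∨ m = 5 ∨ m = 7) (P : HeightOneSpectrum Ei) :
    GPX (fun i => j.symm (a i)) (fun t i => j.symm (b t i)) P ↔ Gdx a b (eK j P) := by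
  rw [gpx_iff]
  unfold Gdx
  have h1 := gd_iff j a P
  have h2 := fun t => gd_iff j (b t) P
  rw [h1]
  simp only [h2]
  unfold Gd
  have h3 : Over3 P ↔ (3 : 𝓞 K) ∈ (eK j P).asIdeal := by
    have h4 := gd_iff j (fun _ : Fin 0 => (0 : 𝓞 K)) P
    unfold GoodP Gd at h4
    constructor
    · intro h5
      by_contra h6
      exact (h4.2 ⟨h6, fun i => i.elim0⟩).1 h5
    · intro h5
      by_contra h6
      exact (h4.1 ⟨h6, fun i => i.elim0⟩).1 h5
  rw [h3]
  constructor
  · rintro ⟨⟨g1, g2⟩, -, g3⟩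
    exact ⟨g1, g2, fun t => (g3 t).2⟩
  · rintro ⟨g1, g2, g3⟩
    exact ⟨⟨g1, g2⟩, g1, fun t => ⟨g1, g3 t⟩⟩

/-- the Frobenius automorphisms -/
theorem frobX (hm : m = 3 ∨ m = 5 ∨ m = 7) (hn : ∀ t, n t = 2 ∨ n t = 4)
    (v : HeightOneSpectrum (𝓞 K)) (hv : Gdx a b v) :
    IsFrobX a b v (dg : IX m n → ℕ)
      (eX (fun i => j.symm (a i)) (fun t i => j.symm (b t i)) ((eK j).symm v)) := by
  obtain ⟨P, rfl⟩ := (eK j).surjective v
  rw [Equiv.symm_apply_apply]
  have hP := (gdx_iff j a b hm P).2 hv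
  have h0 : (eK j P) = pK j P := rfl
  have hnm : (Ideal.absNorm (eK j P).asIdeal : ℤ) = nr (gn P.asIdeal) := by
    rw [h0]
    exact nm_P j P
  refine ⟨fun q => ?_, ?_⟩
  · rw [eX_norm hP]
    congr 1
    rw [← hnm]
    push_cast
    rfl
  · intro F _ _ f k hf hk
    have e1 : ∀ x, f (j x) = 0 ↔ x ∈ P.asIdeal := by
      intro x
      rw [hf, h0, mem_pK]
    have e2 : (Fintype.card F : ℤ) = nr (gn P.asIdeal) ^ k := by
      rw [← hnm, hk]
      push_cast
      rfl
    exact eX_count j hm hn a b hP f e1 e2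

/-- **all the codimensions** -/
theorem allX (hm : m = 3 ∨ m = 5 ∨ m = 7) (hn : ∀ t, n t = 2 ∨ n t = 4) (ha : ∀ i, a i ≠ 0)
    (hb : ∀ t i, b t i ≠ 0) (h : ZX (fun i => j.symm (a i)) (fun t i => j.symm (b t i))) :
    AllCodim a b := by
  have hi : ∀ x : 𝓞 K, x ≠ 0 → j.symm x ≠ 0 := fun x hx h => hx (by
    rw [← j.apply_symm_apply x, h, map_zero])
  refine ⟨fun S τ => ?_, IX m n, inferInstance, dg,
    fun v => eX (fun i => j.symm (a i)) (fun t i => j.symm (b t i)) ((eK j).symm v),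
    fun v hv => frobX j a b hm hn v hv, fun i => ?_⟩
  · obtain ⟨d, b', c', hB, hb0, hc0, hbc⟩ := h S τ
    obtain ⟨-, -, p3, p4⟩ := base_all (K := K) j hB
    have hj0 : ∀ x : Ei, x ≠ 0 → ((j x : 𝓞 K) : K) ≠ 0 := by
      intro x hx h0
      have h1 : j x = 0 := by exact_mod_cast h0
      exact hx (j.injective (by rw [h1, map_zero]))
    have h2 : DX (fun i => j.symm (a i)) (fun t i => j.symm (b t i)) S.1 τ = j.symm (DX a b S.1 τ) :=
      DX_map (j.symm : 𝓞 K →+* Ei) a b S.1 τ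
    rw [h2] at hbc
    have h3 := congrArg (fun x => ((j x : 𝓞 K) : K)) hbc
    simp only [map_mul, map_pow, RingEquiv.apply_symm_apply] at h3
    refine fin_twist (t := ((j c' : 𝓞 K) : K) / ((j b' : 𝓞 K) : K))
      (div_ne_zero (hj0 _ hc0) (hj0 _ hb0)) (hj0 _ p3) ?_ p4
    have h4 : ((j b' : 𝓞 K) : K) ^ 3 ≠ 0 := pow_ne_zero 3 (hj0 _ hb0)
    rw [div_pow, div_mul_eq_mul_div, eq_div_iff h4, mul_comm]
    exact h3
  · obtain ⟨L, h1, h2, h3⟩ := famX j (fun i => j.symm (a i)) (fun t i => j.symm (b t i))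
      (fun i => hi _ (ha i)) (fun t i => hi _ (hb t i)) h i
    refine ⟨L, h1, h2, fun s hs => ?_⟩
    have h4 := h3 s hs
    have e2 : ∀ P : HeightOneSpectrum Ei, (Ideal.absNorm (eK j P).asIdeal : ℂ) = Np P := by
      intro P
      have h0 : (eK j P) = pK j P := rfl
      unfold Np
      rw [← nm_P j P, h0]
      push_cast
      rfl
    have h6 := (Equiv.hasProd_iff ((eK j).subtypeEquiv
      (p := GPX (fun i => j.symm (a i)) (fun t i => j.symm (b t i))) (q := Gdx a b)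
      (gdx_iff j a b hm))
      (f := fun v : {v // Gdx a b v} => ∏ q ∈ Finset.univ.filter
        (fun q : IX m n => dg q + 1 = 2 * i),
        (1 - eX (fun i => j.symm (a i)) (fun t i => j.symm (b t i)) ((eK j).symm v.1) q *
          (Ideal.absNorm v.1.asIdeal : ℂ) ^ (-s))⁻¹) (a := L s)).1
    apply h6
    refine h4.congr_fun fun P => ?_
    show ∏ q ∈ Finset.univ.filter (fun q : IX m n => dg q + 1 = 2 * i),
        (1 - eX (fun i => j.symm (a i)) (fun t i => j.symm (b t i)) ((eK j).symm (eK j P.1)) q *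
          (Ideal.absNorm (eK j P.1).asIdeal : ℂ) ^ (-s))⁻¹ = _
    rw [Equiv.symm_apply_apply, e2]

end K

end Pool.Agent.H451.XP
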