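import Mathlib
import Pool.Agent.H451.TB.Fin2
import Pool.Agent.H451.XP.A5

/-!
# The products: the joint law of the Selmer groups
-/

set_option autoImplicit false
set_option linter.unusedSectionVars false
set_option linter.unusedVariables false

namespace Pool.Agent.H451.XP

open NumberField IsDedekindDomain Finset
open Pool.Agent.Y692.QS (Ei w toC nr nr_mul nr_nonneg nr_zero_iff)
open Pool.Agent.Y715.T.RecG (Pq)
open Pool.Agent.H451.BB
open Pool.Agent.H451.CubT (DS E Good Gd)
open Pool.Agent.H451.TB hiding share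
open scoped Classical

/-- the index set of the coefficients -/
abbrev IM (m : ℕ) {r : ℕ} (n : Fin r → ℕ) : Type := Fin m ⊕ (Σ t : Fin r, Fin (n t))

section
variable {m r : ℕ} {n : Fin r → ℕ}

/-- the numbering of the coefficients -/
noncomputable def en (m : ℕ) {r : ℕ} (n : Fin r → ℕ) :
    Fin (Fintype.card (IM m n)) ≃ IM m n := (Fintype.equivFin (IM m n)).symm

/-- all the coefficients in one tuple -/
noncomputable def pk {R : Type} (p : (Fin m → R) × (∀ t : Fin r, Fin (n t) → R)) :
    Fin (Fintype.card (IM m n)) → R :=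
  fun l => Sum.elim p.1 (fun q => p.2 q.1 q.2) (en m n l)

/-- the bijection -/
noncomputable def pkE (R : Type) (m : ℕ) {r : ℕ} (n : Fin r → ℕ) :
    ((Fin m → R) × (∀ t : Fin r, Fin (n t) → R)) ≃ (Fin (Fintype.card (IM m n)) → R) where
  toFun := pk
  invFun x := (fun i => x ((en m n).symm (.inl i)), fun t i => x ((en m n).symm (.inr ⟨t, i⟩)))
  left_inv p := by
    unfold pk
    refine Prod.ext ?_ ?_
    · funext i
      simp
    · funext t i
      simp
  right_inv x := by
    funext l
    unfold pk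
    obtain ⟨q, rfl⟩ := (en m n).symm.surjective l
    rw [Equiv.apply_symm_apply]
    rcases q with i | ⟨t, i⟩ <;> rfl

lemma pk_inl {R : Type} (p : (Fin m → R) × (∀ t : Fin r, Fin (n t) → R)) (i : Fin m) :
    pk p ((en m n).symm (.inl i)) = p.1 i := by
  unfold pk
  rw [Equiv.apply_symm_apply]
  rfl

lemma pk_inr {R : Type} (p : (Fin m → R) × (∀ t : Fin r, Fin (n t) → R)) (t : Fin r)
    (i : Fin (n t)) : pk p ((en m n).symm (.inr ⟨t, i⟩)) = p.2 t i := by
  unfold pk
  rw [Equiv.apply_symm_apply]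
  rfl

/-- the exponents of a type -/
noncomputable def eT {n : ℕ} (τ : Ty n) (i : Fin n) : ZMod 3 :=
  τ.elim 0 fun T => if i ∈ T.1 then 2 else 1

/-- the exponents of `D_{S,τ}` -/
noncomputable def ex (q : Idx m × ∀ t, Ty (n t)) : Fin (Fintype.card (IM m n)) → ZMod 3 :=
  fun l => Sum.elim (fun i => if i ∈ q.1.1 then 2 else 1) (fun y => eT (q.2 y.1) y.2) (en m n l)

lemma ds_exp {R : Type} [CommRing R] {k : ℕ} (a : Fin k → R) (S : Finset (Fin k)) :
    ∏ i, a i ^ (if i ∈ S then (2 : ZMod 3) else 1).val = DS a S := by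
  unfold DS
  have h1 : ∏ i ∈ S, a i = ∏ i, if i ∈ S then a i else 1 := by
    rw [Finset.prod_ite_mem, Finset.univ_inter]
  rw [h1, ← Finset.prod_mul_distrib]
  refine Finset.prod_congr rfl fun i _ => ?_
  split_ifs
  · show a i ^ 2 = _
    ring
  · show a i ^ 1 = _
    ring

lemma cf_exp {R : Type} [CommRing R] {k : ℕ} (b : Fin k → R) (τ : Ty k) :
    ∏ i, b i ^ (eT τ i).val = cf b τ := by
  rcases τ with _ | T
  · show ∏ i, b i ^ 0 = 1
    simp
  · exact ds_exp b T.1

/-- the monomials -/
theorem twist_pk {R : Type} [CommRing R] (p : (Fin m → R) × (∀ t : Fin r, Fin (n t) → R))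
    (q : Idx m × ∀ t, Ty (n t)) : twist (pk p) (ex q) = DX p.1 p.2 q.1.1 q.2 := by
  unfold twist
  rw [← Equiv.prod_comp (en m n).symm, Fintype.prod_sum_type, Fintype.prod_sigma]
  unfold DX
  congr 1
  · rw [← ds_exp]
    refine Finset.prod_congr rfl fun i _ => ?_
    rw [pk_inl]
    unfold ex
    rw [Equiv.apply_symm_apply]
    rfl
  · refine Finset.prod_congr rfl fun t _ => ?_
    rw [← cf_exp]
    refine Finset.prod_congr rfl fun i _ => ?_
    rw [pk_inr]
    unfold ex
    rw [Equiv.apply_symm_apply]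
    rfl

lemma two_ne_one : (2 : ZMod 3) ≠ 1 := by decide

lemma eT_inj {k : ℕ} (hk : 0 < k) : Function.Injective (eT : Ty k → Fin k → ZMod 3) := by
  intro τ τ' h
  rcases τ with _ | T <;> rcases τ' with _ | T'
  · rfl
  · exfalso
    have h1 := congrFun h ⟨0, hk⟩
    simp only [eT, Option.elim_none, Option.elim_some] at h1
    split_ifs at h1
    · exact absurd h1 (by decide)
    · exact absurd h1 (by decide)
  · exfalso
    have h1 := congrFun h ⟨0, hk⟩
    simp only [eT, Option.elim_none, Option.elim_some] at h1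
    split_ifs at h1
    · exact absurd h1 (by decide)
    · exact absurd h1 (by decide)
  · congr 1
    apply Subtype.ext
    ext i
    have h1 := congrFun h i
    simp only [eT, Option.elim_some] at h1
    by_cases h2 : i ∈ T.1 <;> by_cases h3 : i ∈ T'.1
    · exact ⟨fun _ => h3, fun _ => h2⟩
    · rw [if_pos h2, if_neg h3] at h1
      exact absurd h1 two_ne_one
    · rw [if_neg h2, if_pos h3] at h1
      exact absurd h1.symm two_ne_one
    · exact ⟨fun h => absurd h h2, fun h => absurd h h3⟩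

lemma ex_inl (q : Idx m × ∀ t, Ty (n t)) (i : Fin m) :
    ex q ((en m n).symm (.inl i)) = if i ∈ q.1.1 then 2 else 1 := by
  unfold ex
  rw [Equiv.apply_symm_apply]
  rfl

lemma ex_inr (q : Idx m × ∀ t, Ty (n t)) (t : Fin r) (i : Fin (n t)) :
    ex q ((en m n).symm (.inr ⟨t, i⟩)) = eT (q.2 t) i := by
  unfold ex
  rw [Equiv.apply_symm_apply]
  rfl

lemma ex_inj (hn : ∀ t, n t = 2 ∨ n t = 4) :
    Function.Injective (ex : (Idx m × ∀ t, Ty (n t)) → Fin (Fintype.card (IM m n)) → ZMod 3) := by
  intro q q' h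
  refine Prod.ext ?_ ?_
  · apply Subtype.ext
    ext i
    have h1 := congrFun h ((en m n).symm (.inl i))
    rw [ex_inl, ex_inl] at h1
    by_cases h2 : i ∈ q.1.1 <;> by_cases h3 : i ∈ q'.1.1
    · exact ⟨fun _ => h3, fun _ => h2⟩
    · rw [if_pos h2, if_neg h3] at h1
      exact absurd h1 two_ne_one
    · rw [if_neg h2, if_pos h3] at h1
      exact absurd h1.symm two_ne_one
    · exact ⟨fun h => absurd h h2, fun h => absurd h h3⟩
  · funext t
    have hk : 0 < n t := by
      rcases hn t with h | h <;> omega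
    apply eT_inj hk
    funext i
    have h1 := congrFun h ((en m n).symm (.inr ⟨t, i⟩))
    rwa [ex_inr, ex_inr] at h1

/-- no two of the exponents are opposite -/
lemma ex_neg (hm : m = 3 ∨ m = 5 ∨ m = 7) (q q' : Idx m × ∀ t, Ty (n t)) : ex q' ≠ -ex q := by
  intro h
  have h1 : ∀ i : Fin m, i ∈ q'.1.1 ↔ i ∉ q.1.1 := by
    intro i
    have h2 := congrFun h ((en m n).symm (.inl i))
    rw [Pi.neg_apply, ex_inl, ex_inl] at h2
    by_cases h3 : i ∈ q.1.1 <;> by_cases h4 : i ∈ q'.1.1
    · rw [if_pos h3, if_pos h4] at h2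
      exact absurd h2 (by decide)
    · exact ⟨fun h => absurd h h4, fun h => absurd h3 h⟩
    · exact ⟨fun _ => h3, fun _ => h4⟩
    · rw [if_neg h3, if_neg h4] at h2
      exact absurd h2 (by decide)
  have h2 : q'.1.1 = q.1.1ᶜ := by
    ext i
    rw [Finset.mem_compl]
    exact h1 i
  have h3 := q'.1.2
  rw [h2, Finset.card_compl, Fintype.card_fin, q.1.2] at h3
  omega

end

end Pool.Agent.H451.XP
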