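import Mathlib
import Pool.Agent.H451.XP.A6

/-!
# The products: the proportions
-/

set_option autoImplicit false
set_option linter.unusedSectionVars false
set_option linter.unusedVariables false

namespace Pool.Agent.H451.XP

open NumberField IsDedekindDomain Finset
open Pool.Agent.Y692.QS (Ei w toC nr nr_mul nr_nonneg nr_zero_iff)
open Pool.Agent.Y715.T.RecG (Pq)
open Pool.Agent.H451.BB
open Pool.Agent.H451.CubT (DS E Good Gd)
open Pool.Agent.H451.TB hiding share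
open Pool.Agent.H451.JL (F sw nW GW eD)
open Pool.Agent.H451.JB hiding t_KEY S_KEY S_DQ S_BOX t_DQ t_BOX t_DQ'
open Pool.Agent.Y699.E (nrm nrm_cast nrm_mul nrm_one)
open Pool.Agent.Y550.XK.NS (nrm_prod mod_iff)
open Pool.Agent.Y703.XK (SS c9)
open scoped Classical

section K
variable {K : Type} [Field K] [NumberField K] [IsCyclotomicExtension {3} ℚ K] (j : Ei ≃+* 𝓞 K)

/-- a monomial with trivial Selmer group has rank zero -/
theorem base_mono (hj : ∀ z : Ei, Algebra.norm ℤ (j z) = nr z) {M X : ℕ} {r : Fin M → ℕ}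
    (hr : ∀ l, r l = 4 ∨ r l = 7) {a : Fin M → 𝓞 K} (ha : a ∈ Box K r X) {e : Fin M → ZMod 3}
    (he : Admissible r e) (h : (SelRoot ((twist a e : 𝓞 K) : K)).ncard = 3) :
    ∃ d b' c' : Ei, Base d ∧ b' ≠ 0 ∧ c' ≠ 0 ∧ b' ^ 3 * j.symm (twist a e) = c' ^ 3 * d := by
  obtain ⟨S, hS, rfl⟩ := box_ex j hj X a fun i => by
    obtain ⟨h1, h2, h3, h4⟩ := ha i
    refine ⟨⟨h1, h2, ?_⟩, h3⟩
    rcases hr i with h5 | h5 <;> rw [h5] at h4 <;> push_cast at h4 <;> omega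
  have hc : CondT {r} S := by
    rw [condT_single]
    intro l
    have h4 := (ha l).2.2.2
    simp only [hj] at h4
    have h3 : (nrm (∏ π ∈ S l, π) : ℤ) = nr (∏ π ∈ S l, π) := nrm_cast _
    rw [← h3, nrm_prod] at h4
    exact_mod_cast h4
  have hSP := TT_Pq hS
  have hc' := (condT_single r S).1 hc
  have hU : ∀ π ∈ UN S, Pq π := fun π hπ => by
    obtain ⟨l, hl⟩ := (mem_UN S).1 hπ
    exact hSP l π hl
  obtain ⟨W, hW⟩ : ∃ W : Fin 1 → Fin M → F, W = fun _ => e := ⟨_, rfl⟩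
  have h1 := (ranks_mono j hSP hc W (fun i => by rw [hW]; exact he) 0).1
  have hW0 : W 0 = e := by rw [hW]
  rw [hW0] at h1
  have h2 : nW (wT W S 0) (UN S) = 3 := by
    rw [← h1]
    exact h
  have h4 : twist (fun l => j (∏ π ∈ S l, π)) e = j (mono (fun l => ∏ π ∈ S l, π) e) :=
    mono_map j _ _
  have h6 : ∏ π ∈ UN S, π ^ (exW W S 0 π / 3) ≠ 0 := by
    rw [Finset.prod_ne_zero_iff]
    exact fun π hπ => pow_ne_zero _ (hU π hπ).prime.ne_zero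
  have h8 : ¬ (9 : ℤ) ∣ nr (mono (fun l => ∏ π ∈ S l, π) (W 0)) - 1 := by
    rw [mod_iff, nrm_mono W S 0 r hc', hW0]
    exact he
  have h9 : ¬ (9 : ℤ) ∣ nr (eD 1 (wT W S 0) (UN S)) - 1 := by
    rwa [← nr_mono W S 0 hSP]
  refine ⟨_, 1, ∏ π ∈ UN S, π ^ (exW W S 0 π / 3),
    Pool.Agent.H451.JL.t_BASE (UN S) (wT W S 0) 1 hU one_ne_zero h2 h9, one_ne_zero, h6, ?_⟩
  rw [one_pow, one_mul, h4, j.symm_apply_apply, ← mono_cube, hW0]

end K

section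
variable {m r : ℕ} {n : Fin r → ℕ}

lemma pk_cast (p : (Fin m → ℕ) × (∀ t : Fin r, Fin (n t) → ℕ)) :
    (pk ((fun i => (p.1 i : ℤ)), fun t i => (p.2 t i : ℤ)) :
      Fin (Fintype.card (IM m n)) → ℤ) = fun l => ((pk p l : ℕ) : ℤ) := by
  funext l
  unfold pk
  rcases en m n l with i | ⟨t, i⟩ <;> rfl

lemma res_adm {ρ : Fin m → ℕ} {σ : ∀ t : Fin r, Fin (n t) → ℕ} (h : Res ρ σ)
    (q : Idx m × ∀ t, Ty (n t)) : Admissible (pk (ρ, σ)) (ex q) := by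
  have h1 := h.2.2 q.1 q.2
  have h2 := twist_pk ((fun i => (ρ i : ℤ)), fun t i => (σ t i : ℤ)) q
  rw [← h2, pk_cast (ρ, σ)] at h1
  unfold twist at h1
  unfold Admissible
  intro h4
  apply h1
  have h5 : ((∏ l, pk (ρ, σ) l ^ (ex q l).val : ℕ) : ℤ) % 9 = 1 := by
    exact_mod_cast h4
  push_cast at h5
  exact h5

lemma res_pk {ρ : Fin m → ℕ} {σ : ∀ t : Fin r, Fin (n t) → ℕ} (h : Res ρ σ)
    (l : Fin (Fintype.card (IM m n))) : pk (ρ, σ) l = 4 ∨ pk (ρ, σ) l = 7 := by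
  unfold pk
  rcases en m n l with i | ⟨t, i⟩
  · exact h.1 i
  · exact h.2.1 t i

lemma box_iff {K : Type} [Field K] [NumberField K] (ρ : Fin m → ℕ)
    (σ : ∀ t : Fin r, Fin (n t) → ℕ) (X : ℕ)
    (p : (Fin m → 𝓞 K) × (∀ t : Fin r, Fin (n t) → 𝓞 K)) :
    p ∈ BoxX K ρ σ X ↔ pk p ∈ Box K (pk (ρ, σ)) X := by
  constructor
  · rintro ⟨h1, h2⟩ l
    obtain ⟨q, rfl⟩ := (en m n).symm.surjective l
    rcases q with i | ⟨t, i⟩
    · rw [pk_inl, pk_inl]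
      exact h1 i
    · rw [pk_inr, pk_inr]
      exact h2 t i
  · intro h
    refine ⟨fun i => ?_, fun t i => ?_⟩
    · have h1 := h ((en m n).symm (.inl i))
      rw [pk_inl, pk_inl] at h1
      exact h1
    · have h1 := h ((en m n).symm (.inr ⟨t, i⟩))
      rw [pk_inr, pk_inr] at h1
      exact h1

lemma box_count {K : Type} [Field K] [NumberField K] (ρ : Fin m → ℕ)
    (σ : ∀ t : Fin r, Fin (n t) → ℕ) (X : ℕ) (Q : (Fin (Fintype.card (IM m n)) → 𝓞 K) → Prop) :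
    {p | p ∈ BoxX K ρ σ X ∧ Q (pk p)}.ncard = {x | x ∈ Box K (pk (ρ, σ)) X ∧ Q x}.ncard := by
  have h1 : {x | x ∈ Box K (pk (ρ, σ)) X ∧ Q x} =
      (pkE (𝓞 K) m n) '' {p | p ∈ BoxX K ρ σ X ∧ Q (pk p)} := by
    ext x
    constructor
    · rintro ⟨h1, h2⟩
      obtain ⟨p, rfl⟩ := (pkE (𝓞 K) m n).surjective x
      exact ⟨p, ⟨(box_iff ρ σ X p).2 h1, h2⟩, rfl⟩
    · rintro ⟨p, ⟨h1, h2⟩, rfl⟩
      exact ⟨(box_iff ρ σ X p).1 h1, h2⟩
  rw [h1, Set.ncard_image_of_injective _ (pkE (𝓞 K) m n).injective]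

/-- **the joint law** -/
theorem lawX (K : Type) [Field K] [NumberField K] [IsCyclotomicExtension {3} ℚ K]
    (hm : m = 3 ∨ m = 5 ∨ m = 7) (hn : ∀ t, n t = 2 ∨ n t = 4)
    {ρ : Fin m → ℕ} {σ : ∀ t : Fin r, Fin (n t) → ℕ} (h : Res ρ σ)
    (ν : (Idx m × ∀ t, Ty (n t)) → ℕ) :
    Filter.Tendsto (fun X : ℕ => ({p | p ∈ BoxX K ρ σ X ∧ ∀ q : Idx m × ∀ t, Ty (n t),
        (SelRoot ((DX p.1 p.2 q.1.1 q.2 : 𝓞 K) : K)).ncard = 3 ^ (ν q + 1)}.ncard : ℝ) /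
      ((BoxX K ρ σ X).ncard : ℝ)) Filter.atTop (nhds (∏ q, prob (ν q))) := by
  obtain ⟨-, -, -, h4⟩ := main_mono K (Fintype.card (IM m n)) (pk (ρ, σ)) (res_pk h)
  have hind : Independent (pk (ρ, σ)) (univ.image
      (ex : (Idx m × ∀ t, Ty (n t)) → Fin (Fintype.card (IM m n)) → ZMod 3)) := by
    intro e he
    obtain ⟨q, -, rfl⟩ := Finset.mem_image.1 he
    refine ⟨res_adm h q, fun h5 => ?_⟩
    obtain ⟨q', -, h6⟩ := Finset.mem_image.1 h5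
    exact ex_neg hm q q' h6
  have h5 := h4 _ hind (Function.extend ex ν 0)
  have h6 : ∏ e ∈ univ.image (ex : (Idx m × ∀ t, Ty (n t)) → Fin (Fintype.card (IM m n)) → ZMod 3),
      prob (Function.extend ex ν 0 e) = ∏ q, prob (ν q) := by
    rw [Finset.prod_image fun q _ q' _ h => ex_inj hn h]
    refine Finset.prod_congr rfl fun q _ => ?_
    rw [(ex_inj hn).extend_apply]
  rw [h6] at h5
  refine h5.congr fun X => ?_
  have h7 := box_count (K := K) ρ σ X fun x => ∀ e ∈ univ.image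
    (ex : (Idx m × ∀ t, Ty (n t)) → Fin (Fintype.card (IM m n)) → ZMod 3),
    (SelRoot ((twist x e : 𝓞 K) : K)).ncard = 3 ^ (Function.extend ex ν 0 e + 1)
  have h8 := box_count (K := K) ρ σ X fun x => True
  simp only [and_true] at h8
  have h9 : (BoxX K ρ σ X).ncard = (Box K (pk (ρ, σ)) X).ncard := h8
  rw [← h7, ← h9]
  congr 3
  ext p
  simp only [Set.mem_ofPred_eq]
  refine and_congr_right fun _ => ?_
  constructor
  · intro h10 q
    have h11 := h10 _ (Finset.mem_image_of_mem _ (Finset.mem_univ q))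
    rw [(ex_inj hn).extend_apply, twist_pk] at h11
    exact h11
  · intro h10 e he
    obtain ⟨q, -, rfl⟩ := Finset.mem_image.1 he
    rw [(ex_inj hn).extend_apply, twist_pk]
    exact h10 q

/-- **trivial Selmer groups** -/
theorem triv_all (K : Type) [Field K] [NumberField K] [IsCyclotomicExtension {3} ℚ K]
    (hm : m = 3 ∨ m = 5 ∨ m = 7) (hn : ∀ t, n t = 2 ∨ n t = 4)
    {ρ : Fin m → ℕ} {σ : ∀ t : Fin r, Fin (n t) → ℕ} (h : Res ρ σ) {X : ℕ}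
    {p : (Fin m → 𝓞 K) × (∀ t : Fin r, Fin (n t) → 𝓞 K)} (hp : p ∈ BoxX K ρ σ X)
    (hs : ∀ q : Idx m × ∀ t, Ty (n t),
      (SelRoot ((DX p.1 p.2 q.1.1 q.2 : 𝓞 K) : K)).ncard = 3) : AllCodim p.1 p.2 := by
  obtain ⟨⟨j, hj⟩, -⟩ := Pool.Agent.Y455.CTK.jex K
  refine allX j p.1 p.2 hm hn (fun i => (hp.1 i).2.1.ne_zero) (fun t i => (hp.2 t i).2.1.ne_zero)
    fun S τ => ?_
  have h1 := hs (S, τ)
  rw [← twist_pk p (S, τ)] at h1
  have h2 := base_mono j hj (res_pk h) ((box_iff ρ σ X p).1 hp) (res_adm h (S, τ)) h1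
  rw [twist_pk] at h2
  have h4 : DX (fun i => j.symm (p.1 i)) (fun t i => j.symm (p.2 t i)) S.1 τ =
      j.symm (DX p.1 p.2 S.1 τ) := DX_map (j.symm : 𝓞 K →+* Ei) p.1 p.2 S.1 τ
  rw [h4]
  exact h2

end

end Pool.Agent.H451.XP
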