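import Mathlib
import Pool.Agent.H451.PV.A6
import Pool.Agent.H451.XP.A7

/-!
# The products: the final theorem
-/

set_option autoImplicit false
set_option linter.unusedSectionVars false
set_option linter.unusedVariables false

namespace Pool.Agent.H451.XP

open NumberField IsDedekindDomain Finset
open Pool.Agent.Y692.QS (Ei w toC nr nr_mul nr_nonneg nr_zero_iff)
open Pool.Agent.Y715.T.RecG (Pq)
open Pool.Agent.H451.CubT (DS E Good Gd)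
open Pool.Agent.H451.TB hiding share
open Pool.Agent.H451.JB hiding t_KEY S_KEY S_DQ S_BOX t_DQ t_BOX t_DQ'
open Pool.Agent.Y703.XK (SS c9)
open scoped Classical

section
variable {m r : ℕ} {n : Fin r → ℕ}

/-- there are admissible residues -/
theorem res_ex (hm : m = 3 ∨ m = 5 ∨ m = 7) (hn : ∀ t, n t = 2 ∨ n t = 4) :
    ∃ (ρ : Fin m → ℕ) (σ : ∀ t : Fin r, Fin (n t) → ℕ), Res ρ σ := by
  obtain ⟨ρ, hρ, h4⟩ := RA_memT hm
  refine ⟨ρ, fun _ _ => 4, h4, fun _ _ => Or.inl rfl, fun S τ => ?_⟩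
  have h1 : ∀ t, cf (fun _ : Fin (n t) => ((4 : ℕ) : ℤ)) (τ t) % 9 = 1 := by
    intro t
    rcases h : τ t with _ | T
    · rfl
    · show DS (fun _ : Fin (n t) => ((4 : ℕ) : ℤ)) T.1 % 9 = 1
      unfold DS
      rw [Finset.prod_const, Finset.prod_const, Finset.card_univ, Fintype.card_fin, T.2]
      rcases hn t with h | h <;> rw [h] <;> rfl
  have h2 : (∏ t, cf (fun _ : Fin (n t) => ((4 : ℕ) : ℤ)) (τ t)) % 9 = 1 := by
    rw [Finset.prod_int_mod, Finset.prod_congr rfl fun t _ => h1 t, Finset.prod_const_one]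
    rfl
  have h3 := hρ S.1 S.2
  unfold DX
  rw [Int.mul_emod, h2, mul_one, Int.emod_emod]
  unfold DS
  intro h5
  apply h3
  beta_reduce at h5
  exact_mod_cast h5

lemma card_q : Fintype.card (Idx m × ∀ t, Ty (n t)) =
    m.choose ((m - 3) / 2) * ∏ t, (1 + (n t).choose (n t / 2)) := by
  rw [Fintype.card_prod, Fintype.card_finset_len, Fintype.card_fin, Fintype.card_pi]
  congr 1
  refine Finset.prod_congr rfl fun t _ => ?_
  rw [Fintype.card_option, Fintype.card_finset_len, Fintype.card_fin, add_comm]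

lemma card_im : Fintype.card (IM m n) = m + ∑ t, n t := by
  rw [Fintype.card_sum, Fintype.card_sigma, Fintype.card_fin]
  congr 1
  exact Finset.sum_congr rfl fun t _ => Fintype.card_fin _

/-- the number of all the tuples -/
lemma all_count {K : Type} [Field K] [NumberField K] [IsCyclotomicExtension {3} ℚ K] {M : ℕ} (X : ℕ)
    (hX : 1 ≤ X) : {x : Fin M → 𝓞 K | ∀ l, x l ≠ 0 ∧ Algebra.norm ℤ (x l) ≤ X}.Finite ∧
    ({x : Fin M → 𝓞 K | ∀ l, x l ≠ 0 ∧ Algebra.norm ℤ (x l) ≤ X}.ncard : ℝ) ≤ (16 * X) ^ M := by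
  obtain ⟨⟨j, hj⟩, -⟩ := Pool.Agent.Y455.CTK.jex K
  obtain ⟨A, hA, hAc⟩ := card_all X hX
  have hsub : {a : Fin M → 𝓞 K | ∀ i, a i ≠ 0 ∧ Algebra.norm ℤ (a i) ≤ X} ⊆
      ((Fintype.piFinset fun _ : Fin M => A.image j : Finset (Fin M → 𝓞 K)) :
        Set (Fin M → 𝓞 K)) := by
    intro a ha
    rw [Finset.mem_coe, Fintype.mem_piFinset]
    intro i
    rw [mem_image]
    refine ⟨j.symm (a i), hA _ ?_, j.apply_symm_apply _⟩
    rw [← hj, j.apply_symm_apply]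
    exact (ha i).2
  refine ⟨(Finset.finite_toSet _).subset hsub, ?_⟩
  have h2 := Set.ncard_le_ncard hsub (Finset.finite_toSet _)
  rw [Set.ncard_coe_finset, Fintype.card_piFinset, prod_const, card_univ, Fintype.card_fin] at h2
  have h3 : (((A.image j).card ^ M : ℕ) : ℝ) ≤ (16 * X) ^ M := by
    push_cast
    refine pow_le_pow_left₀ (Nat.cast_nonneg _) (le_trans ?_ hAc) _
    exact_mod_cast card_image_le
  exact le_trans (by exact_mod_cast h2) h3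

lemma allX_iff {K : Type} [Field K] [NumberField K] (X : ℕ)
    (p : (Fin m → 𝓞 K) × (∀ t : Fin r, Fin (n t) → 𝓞 K)) :
    p ∈ AllX K m n X ↔ pk p ∈ {x : Fin (Fintype.card (IM m n)) → 𝓞 K |
      ∀ l, x l ≠ 0 ∧ Algebra.norm ℤ (x l) ≤ X} := by
  constructor
  · rintro ⟨h1, h2⟩ l
    obtain ⟨q, rfl⟩ := (en m n).symm.surjective l
    rcases q with i | ⟨t, i⟩
    · rw [pk_inl]
      exact h1 i
    · rw [pk_inr]
      exact h2 t i
  · intro h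
    refine ⟨fun i => ?_, fun t i => ?_⟩
    · have h1 := h ((en m n).symm (.inl i))
      rwa [pk_inl] at h1
    · have h1 := h ((en m n).symm (.inr ⟨t, i⟩))
      rwa [pk_inr] at h1

lemma allX_count {K : Type} [Field K] [NumberField K] [IsCyclotomicExtension {3} ℚ K] (X : ℕ)
    (hX : 1 ≤ X) : (AllX K m n X).Finite ∧
    ((AllX K m n X).ncard : ℝ) ≤ (16 * X) ^ Fintype.card (IM m n) := by
  obtain ⟨h1, h2⟩ := all_count (K := K) (M := Fintype.card (IM m n)) X hX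
  have h3 : (pkE (𝓞 K) m n) '' (AllX K m n X) = {x : Fin (Fintype.card (IM m n)) → 𝓞 K |
      ∀ l, x l ≠ 0 ∧ Algebra.norm ℤ (x l) ≤ X} := by
    ext x
    constructor
    · rintro ⟨p, hp, rfl⟩
      exact (allX_iff X p).1 hp
    · intro hx
      obtain ⟨p, rfl⟩ := (pkE (𝓞 K) m n).surjective x
      exact ⟨p, (allX_iff X p).2 hx, rfl⟩
  rw [← h3] at h1 h2
  rw [Set.ncard_image_of_injective _ (pkE (𝓞 K) m n).injective] at h2
  exact ⟨h1.of_finite_image (pkE (𝓞 K) m n).injective.injOn, h2⟩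

lemma box_low (K : Type) [Field K] [NumberField K] [IsCyclotomicExtension {3} ℚ K]
    {ρ : Fin m → ℕ} {σ : ∀ t : Fin r, Fin (n t) → ℕ} (h : Res ρ σ) :
    ∃ c : ℝ, 0 < c ∧ ∃ X₀ : ℕ, ∀ X : ℕ, X₀ ≤ X →
      c * (X : ℝ) ^ (m + ∑ t, n t) ≤ ((BoxX K ρ σ X).ncard : ℝ) := by
  obtain ⟨-, ⟨c, hc, X₀, h2⟩, -, -⟩ := main_mono K (Fintype.card (IM m n)) (pk (ρ, σ)) (res_pk h)
  refine ⟨c, hc, X₀, fun X hX => ?_⟩
  have h8 := box_count (K := K) ρ σ X fun x => True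
  simp only [and_true] at h8
  have h9 : (BoxX K ρ σ X).ncard = (Box K (pk (ρ, σ)) X).ncard := h8
  rw [h9, ← card_im]
  exact h2 X hX

/-- the ranks in the boxes -/
lemma box_rank (K : Type) [Field K] [NumberField K] [IsCyclotomicExtension {3} ℚ K]
    {ρ : Fin m → ℕ} {σ : ∀ t : Fin r, Fin (n t) → ℕ} (h : Res ρ σ) {X : ℕ}
    {p : (Fin m → 𝓞 K) × (∀ t : Fin r, Fin (n t) → 𝓞 K)} (hp : p ∈ BoxX K ρ σ X)
    (S : Idx m) (τ : ∀ t, Ty (n t)) : ∃ ν : ℕ,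
      (SelRoot ((DX p.1 p.2 S.1 τ : 𝓞 K) : K)).ncard = 3 ^ (ν + 1) ∧
      rank ((DX p.1 p.2 S.1 τ : 𝓞 K) : K) ≤ 2 * ν := by
  obtain ⟨-, -, h3, -⟩ := main_mono K (Fintype.card (IM m n)) (pk (ρ, σ)) (res_pk h)
  obtain ⟨ν, s, h4, -, -, -, h5⟩ := h3 X (pk p) ((box_iff ρ σ X p).1 hp) (ex (S, τ))
    (res_adm h (S, τ))
  rw [twist_pk] at h4 h5
  exact ⟨ν, h4, h5⟩

end

/-- **The main theorem on the products.** -/
theorem final_XP (K : Type) [Field K] [NumberField K] [IsCyclotomicExtension {3} ℚ K] (m : ℕ)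
    (hm : m = 3 ∨ m = 5 ∨ m = 7) (r : ℕ) (n : Fin r → ℕ) (hn : ∀ t, n t = 2 ∨ n t = 4) :
    (∀ (a : Fin m → 𝓞 K) (b : ∀ t : Fin r, Fin (n t) → 𝓞 K), MotX a b ∧
      ∃ (ι : Type) (_ : Fintype ι) (deg : ι → ℕ) (α : HeightOneSpectrum (𝓞 K) → ι → ℂ),
        ∀ v, Gdx a b v → IsFrobX a b v deg (α v)) ∧
    (∃ c : ℝ, 0 < c ∧ ∃ X₀ : ℕ, ∀ X : ℕ, X₀ ≤ X → c * ((AllX K m n X).ncard : ℝ) ≤
      ({p | p ∈ AllX K m n X ∧ AllCodim p.1 p.2}.ncard : ℝ)) ∧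
    (∃ (ρ : Fin m → ℕ) (σ : ∀ t : Fin r, Fin (n t) → ℕ), Res ρ σ) ∧
    ∀ (ρ : Fin m → ℕ) (σ : ∀ t : Fin r, Fin (n t) → ℕ), Res ρ σ →
      (∃ c : ℝ, 0 < c ∧ ∃ X₀ : ℕ, ∀ X : ℕ, X₀ ≤ X →
        c * (X : ℝ) ^ (m + ∑ t, n t) ≤ ((BoxX K ρ σ X).ncard : ℝ)) ∧
      (∀ X : ℕ, ∀ p ∈ BoxX K ρ σ X,
        (∀ (S : Idx m) (τ : ∀ t, Ty (n t)), ∃ ν : ℕ,
          (SelRoot ((DX p.1 p.2 S.1 τ : 𝓞 K) : K)).ncard = 3 ^ (ν + 1) ∧
          rank ((DX p.1 p.2 S.1 τ : 𝓞 K) : K) ≤ 2 * ν) ∧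
        ((∀ (S : Idx m) (τ : ∀ t, Ty (n t)),
          (SelRoot ((DX p.1 p.2 S.1 τ : 𝓞 K) : K)).ncard = 3) → AllCodim p.1 p.2)) ∧
      (∀ ν : Idx m → (∀ t, Ty (n t)) → ℕ, Filter.Tendsto (fun X : ℕ =>
        ({p | p ∈ BoxX K ρ σ X ∧ ∀ (S : Idx m) (τ : ∀ t, Ty (n t)),
          (SelRoot ((DX p.1 p.2 S.1 τ : 𝓞 K) : K)).ncard = 3 ^ (ν S τ + 1)}.ncard : ℝ) /
        ((BoxX K ρ σ X).ncard : ℝ)) Filter.atTop (nhds (∏ S, ∏ τ, prob (ν S τ)))) ∧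
      Filter.Tendsto (fun X : ℕ =>
        ({p | p ∈ BoxX K ρ σ X ∧ ∀ (S : Idx m) (τ : ∀ t, Ty (n t)),
          (SelRoot ((DX p.1 p.2 S.1 τ : 𝓞 K) : K)).ncard = 3}.ncard : ℝ) /
        ((BoxX K ρ σ X).ncard : ℝ)) Filter.atTop
        (nhds ((∏' i : ℕ, (1 - (1 / 3 : ℝ) ^ (2 * i + 1))) ^
          (m.choose ((m - 3) / 2) * ∏ t, (1 + (n t).choose (n t / 2))))) := by
  obtain ⟨⟨j, hj⟩, -⟩ := Pool.Agent.Y455.CTK.jex K
  have hlaw : ∀ (ρ : Fin m → ℕ) (σ : ∀ t : Fin r, Fin (n t) → ℕ), Res ρ σ →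
      ∀ ν : Idx m → (∀ t, Ty (n t)) → ℕ, Filter.Tendsto (fun X : ℕ =>
        ({p | p ∈ BoxX K ρ σ X ∧ ∀ (S : Idx m) (τ : ∀ t, Ty (n t)),
          (SelRoot ((DX p.1 p.2 S.1 τ : 𝓞 K) : K)).ncard = 3 ^ (ν S τ + 1)}.ncard : ℝ) /
        ((BoxX K ρ σ X).ncard : ℝ)) Filter.atTop (nhds (∏ S, ∏ τ, prob (ν S τ))) := by
    intro ρ σ h ν
    have h1 := lawX K hm hn h fun q => ν q.1 q.2
    rw [Fintype.prod_prod_type] at h1
    refine h1.congr fun X => ?_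
    congr 3
    ext p
    simp only [Set.mem_ofPred_eq]
    exact and_congr_right fun _ => ⟨fun g S τ => g (S, τ), fun g q => g q.1 q.2⟩
  have hp0 : prob 0 = ∏' i : ℕ, (1 - (1 / 3 : ℝ) ^ (2 * i + 1)) := by
    unfold prob
    rw [Finset.prod_range_zero, div_one]
  have hlaw0 : ∀ (ρ : Fin m → ℕ) (σ : ∀ t : Fin r, Fin (n t) → ℕ), Res ρ σ →
      Filter.Tendsto (fun X : ℕ =>
        ({p | p ∈ BoxX K ρ σ X ∧ ∀ (S : Idx m) (τ : ∀ t, Ty (n t)),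
          (SelRoot ((DX p.1 p.2 S.1 τ : 𝓞 K) : K)).ncard = 3}.ncard : ℝ) /
        ((BoxX K ρ σ X).ncard : ℝ)) Filter.atTop
        (nhds ((∏' i : ℕ, (1 - (1 / 3 : ℝ) ^ (2 * i + 1))) ^
          (m.choose ((m - 3) / 2) * ∏ t, (1 + (n t).choose (n t / 2))))) := by
    intro ρ σ h
    have h1 := hlaw ρ σ h fun _ _ => 0
    have h2 : ∏ S : Idx m, ∏ τ : ∀ t, Ty (n t), prob 0 =
        (∏' i : ℕ, (1 - (1 / 3 : ℝ) ^ (2 * i + 1))) ^
          (m.choose ((m - 3) / 2) * ∏ t, (1 + (n t).choose (n t / 2))) := by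
      rw [← Fintype.prod_prod_type (fun _ : Idx m × ∀ t, Ty (n t) => prob 0), Finset.prod_const,
        Finset.card_univ, card_q, hp0]
    rw [h2] at h1
    simp only [zero_add, pow_one] at h1
    exact h1
  have htriv : ∀ (ρ : Fin m → ℕ) (σ : ∀ t : Fin r, Fin (n t) → ℕ), Res ρ σ →
      ∀ X : ℕ, ∀ p ∈ BoxX K ρ σ X, (∀ (S : Idx m) (τ : ∀ t, Ty (n t)),
          (SelRoot ((DX p.1 p.2 S.1 τ : 𝓞 K) : K)).ncard = 3) → AllCodim p.1 p.2 :=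
    fun ρ σ h X p hp hs => triv_all K hm hn h hp fun q => hs q.1 q.2
  refine ⟨fun a b => ⟨motX j hm hn a b, IX m n, inferInstance, dg,
    fun v => eX (fun i => j.symm (a i)) (fun t i => j.symm (b t i))
      ((Pool.Agent.Y696.CTK.eK j).symm v),
    fun v hv => frobX j a b hm hn v hv⟩, ?_, res_ex hm hn,
    fun ρ σ h => ⟨box_low K h, fun X p hp => ⟨fun S τ => box_rank K h hp S τ, htriv ρ σ h X p hp⟩,
      hlaw ρ σ h, hlaw0 ρ σ h⟩⟩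
  obtain ⟨ρ, σ, h⟩ := res_ex (r := r) (n := n) hm hn
  obtain ⟨c, hc, X₀, hlow⟩ := box_low K h
  obtain ⟨-, -, c2, c3, -⟩ := Pool.Agent.Y703.XL.t_C9
  obtain ⟨N, hN⟩ : ∃ N : ℕ, N = m.choose ((m - 3) / 2) * ∏ t, (1 + (n t).choose (n t / 2)) :=
    ⟨_, rfl⟩
  have hlim := hlaw0 ρ σ h
  rw [← hN] at hlim
  have hN1 : 1 ≤ N := by
    rw [hN]
    refine Nat.mul_pos (Nat.choose_pos (by omega)) (Finset.prod_pos fun t _ => by omega)
  have hlt : (0.639 : ℝ) ^ N < c9 ^ N := pow_lt_pow_left₀ c3 (by norm_num) (by omega)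
  have hev := hlim.eventually (lt_mem_nhds hlt)
  obtain ⟨X₁, hX1⟩ := Filter.eventually_atTop.1 hev
  obtain ⟨p, hp⟩ : ∃ p : ℝ, p = 0.639 ^ N * c := ⟨_, rfl⟩
  have hp0 : 0 < p := by rw [hp]; positivity
  obtain ⟨M, hM⟩ : ∃ M : ℕ, M = m + ∑ t, n t := ⟨_, rfl⟩
  refine ⟨p / 16 ^ M, by positivity, max X₀ (max X₁ 1), fun X hXX => ?_⟩
  have a1 : X₀ ≤ X := le_trans (le_max_left _ _) hXX
  have a2 : X₁ ≤ X := le_trans (le_trans (le_max_left _ _) (le_max_right _ _)) hXX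
  have a3 : 1 ≤ X := le_trans (le_trans (le_max_right _ _) (le_max_right _ _)) hXX
  obtain ⟨hfin, h1⟩ := allX_count (K := K) (m := m) (n := n) X a3
  rw [card_im, ← hM] at h1
  have h4 : ({p | p ∈ BoxX K ρ σ X ∧ ∀ (S : Idx m) (τ : ∀ t, Ty (n t)),
          (SelRoot ((DX p.1 p.2 S.1 τ : 𝓞 K) : K)).ncard = 3}.ncard : ℝ) ≤
      ({p | p ∈ AllX K m n X ∧ AllCodim p.1 p.2}.ncard : ℝ) := by
    have h5 : {p | p ∈ BoxX K ρ σ X ∧ ∀ (S : Idx m) (τ : ∀ t, Ty (n t)),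
          (SelRoot ((DX p.1 p.2 S.1 τ : 𝓞 K) : K)).ncard = 3} ⊆
        {p | p ∈ AllX K m n X ∧ AllCodim p.1 p.2} := by
      rintro q ⟨g1, g2⟩
      exact ⟨⟨fun i => ⟨(g1.1 i).2.1.ne_zero, (g1.1 i).2.2.1⟩,
        fun t i => ⟨(g1.2 t i).2.1.ne_zero, (g1.2 t i).2.2.1⟩⟩, htriv ρ σ h X q g1 g2⟩
    exact_mod_cast Set.ncard_le_ncard h5 (hfin.subset fun a ha => ha.1)
  have h7 := hlow X a1
  rw [← hM] at h7
  have hpos : (0 : ℝ) < ((BoxX K ρ σ X).ncard : ℝ) := by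
    refine lt_of_lt_of_le ?_ h7
    have : (1 : ℝ) ≤ X := by exact_mod_cast a3
    positivity
  have h6 := hX1 X a2
  rw [lt_div_iff₀ hpos] at h6
  have h8 : p * (X : ℝ) ^ M ≤ 0.639 ^ N * ((BoxX K ρ σ X).ncard : ℝ) := by
    rw [hp, mul_assoc]
    exact mul_le_mul_of_nonneg_left h7 (by positivity)
  calc p / 16 ^ M * ((AllX K m n X).ncard : ℝ) ≤
      p / 16 ^ M * (16 * X) ^ M := mul_le_mul_of_nonneg_left h1 (by positivity)
    _ = p * (X : ℝ) ^ M := by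
      rw [mul_pow]
      field_simp
    _ ≤ _ := h8.trans (h6.le.trans h4)

end Pool.Agent.H451.XP
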